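import Pool.Agent.Helper1.RK.StC

/-! Project RK (owner helper1), module DSC: descent along the doubling map. -/

set_option autoImplicit false

namespace Pool.Agent.Helper58.RK

open Pool.Agent.Helper1.RK Polynomial

theorem dsc_dg {L : Type} [Field L] (p q : L[X]) (hp : p ≠ 0) (hq : q ≠ 0)
    (h : IsCoprime p q) : dg (algebraMap L[X] (RatFunc L) p / algebraMap L[X] (RatFunc L) q) =
      max p.natDegree q.natDegree := by
  set g := algebraMap L[X] (RatFunc L) p / algebraMap L[X] (RatFunc L) q with hg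
  have hinj := RatFunc.algebraMap_injective L
  have hq' : algebraMap L[X] (RatFunc L) q ≠ 0 := (map_ne_zero_iff _ hinj).2 hq
  have hd' : algebraMap L[X] (RatFunc L) g.denom ≠ 0 :=
    (map_ne_zero_iff _ hinj).2 g.denom_ne_zero
  have h1 := RatFunc.num_div_denom g
  have h2 : p * g.denom = g.num * q := by
    apply hinj
    rw [map_mul, map_mul]
    have h3 : algebraMap L[X] (RatFunc L) g.num / algebraMap L[X] (RatFunc L) g.denom =
        algebraMap L[X] (RatFunc L) p / algebraMap L[X] (RatFunc L) q := by rw [h1]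
    rw [div_eq_div_iff hd' hq'] at h3
    exact h3.symm
  have hc := RatFunc.isCoprime_num_denom g
  have hn : g.num ≠ 0 := by
    intro h4
    rw [h4, zero_mul] at h2
    exact (mul_ne_zero hp g.denom_ne_zero) h2
  have a1 : p ∣ g.num := h.dvd_of_dvd_mul_right ⟨g.denom, h2.symm⟩
  have a2 : g.num ∣ p := hc.dvd_of_dvd_mul_right ⟨q, h2⟩
  have a3 : q ∣ g.denom := h.symm.dvd_of_dvd_mul_left ⟨g.num, by rw [h2]; ring⟩
  have a4 : g.denom ∣ q := hc.symm.dvd_of_dvd_mul_left ⟨p, by rw [← h2]; ring⟩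
  have b1 : g.num.natDegree = p.natDegree :=
    le_antisymm (natDegree_le_of_dvd a2 hp) (natDegree_le_of_dvd a1 hn)
  have b2 : g.denom.natDegree = q.natDegree :=
    le_antisymm (natDegree_le_of_dvd a4 hq) (natDegree_le_of_dvd a3 g.denom_ne_zero)
  unfold dg
  rw [b1, b2]

theorem dsc_sq {K : Type} [Field K] [CharZero K] (A B Y W f : K) (hf : f ≠ 0)
    (hfY : f = Y ^ 3 + A * Y + B) (hW : W = (Y ^ 4 - 2 * A * Y ^ 2 - 8 * B * Y + A ^ 2) / (4 * f)) :
    (W ^ 3 + A * W + B) * f = ((Y ^ 6 + 5 * A * Y ^ 4 + 20 * B * Y ^ 3 - 5 * A ^ 2 * Y ^ 2 -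
      4 * A * B * Y - 8 * B ^ 2 - A ^ 3) / (8 * f)) * ((Y ^ 6 + 5 * A * Y ^ 4 + 20 * B * Y ^ 3 -
      5 * A ^ 2 * Y ^ 2 - 4 * A * B * Y - 8 * B ^ 2 - A ^ 3) / (8 * f)) := by
  have h4 : (4 : K) ≠ 0 := by norm_num
  have h8 : (8 : K) ≠ 0 := by norm_num
  have key : (Y ^ 4 - 2 * A * Y ^ 2 - 8 * B * Y + A ^ 2) ^ 3 + 16 * A *
      (Y ^ 4 - 2 * A * Y ^ 2 - 8 * B * Y + A ^ 2) * f ^ 2 + 64 * B * f ^ 3 =
      (Y ^ 6 + 5 * A * Y ^ 4 + 20 * B * Y ^ 3 - 5 * A ^ 2 * Y ^ 2 - 4 * A * B * Y - 8 * B ^ 2 -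
        A ^ 3) ^ 2 := by
    rw [hfY]
    ring
  generalize (Y ^ 6 + 5 * A * Y ^ 4 + 20 * B * Y ^ 3 - 5 * A ^ 2 * Y ^ 2 - 4 * A * B * Y -
    8 * B ^ 2 - A ^ 3) = G at key ⊢
  generalize (Y ^ 4 - 2 * A * Y ^ 2 - 8 * B * Y + A ^ 2) = N at key hW
  rw [hW]
  field_simp
  linear_combination (64 : K) * key

theorem pDSC (h1 : StIOT) (h2 : StDGM) : StDSC := by
  intro L _ _ _ a b W Y hdisc hW hD
  have hδ : (RatFunc.C (4 * a ^ 3 + 27 * b ^ 2) : RatFunc L) ≠ 0 :=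
    (map_ne_zero (RatFunc.C : L →+* RatFunc L)).2 hdisc
  have hδe : (RatFunc.C (4 * a ^ 3 + 27 * b ^ 2) : RatFunc L) =
      4 * RatFunc.C a ^ 3 + 27 * RatFunc.C b ^ 2 := by
    rw [map_add, map_mul, map_mul, map_pow, map_pow, map_ofNat, map_ofNat]
  unfold Dbl at hD
  have hf : wei a b Y ≠ 0 := by
    intro h
    apply hδ
    rw [hδe]
    have h3 : Y ^ 3 + RatFunc.C a * Y + RatFunc.C b = 0 := h
    rw [h, mul_zero] at hD
    linear_combination (3 * Y ^ 2 + 4 * RatFunc.C a) * hD -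
      (3 * Y ^ 3 - 5 * RatFunc.C a * Y - 27 * RatFunc.C b) * h3
  have : CharZero (RatFunc L) :=
    charZero_of_injective_algebraMap (algebraMap L (RatFunc L)).injective
  have h4 : (4 : RatFunc L) ≠ 0 := by norm_num
  have hWe : W = (Y ^ 4 - 2 * RatFunc.C a * Y ^ 2 - 8 * RatFunc.C b * Y + RatFunc.C a ^ 2) /
      (4 * wei a b Y) := by
    rw [eq_div_iff (mul_ne_zero h4 hf), hD]
    ring
  have hY : ¬ Cst Y := by
    rintro ⟨y, rfl⟩
    apply hW
    refine ⟨(y ^ 4 - 2 * a * y ^ 2 - 8 * b * y + a ^ 2) / (4 * (y ^ 3 + a * y + b)), ?_⟩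
    rw [hWe]
    unfold wei
    simp only [map_div₀, map_add, map_sub, map_mul, map_pow, map_ofNat]
  refine ⟨hY, ?_, ?_⟩
  · exact ⟨_, dsc_sq (RatFunc.C a) (RatFunc.C b) Y W (wei a b Y) hf rfl hWe⟩
  · obtain ⟨-, -, -, hex, -, hC⟩ := h1 L
    obtain ⟨-, hdg, -, -⟩ := h2 L
    obtain ⟨θ, hθ⟩ := hex Y hY
    have hCθ := (hC θ).1
    set N : L[X] := X ^ 4 - 2 * C a * X ^ 2 - 8 * C b * X + C a ^ 2 with hN
    set F : L[X] := C 4 * (X ^ 3 + C a * X + C b) with hF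
    have hNd : N.natDegree = 4 := by
      rw [hN]
      compute_degree!
    have h4' : (4 : L) ≠ 0 := by norm_num
    have hFd : F.natDegree = 3 := by
      rw [hF, natDegree_C_mul h4']
      compute_degree!
    have hN0 : N ≠ 0 := by
      intro h
      rw [h, natDegree_zero] at hNd
      omega
    have hF0 : F ≠ 0 := by
      intro h
      rw [h, natDegree_zero] at hFd
      omega
    have hcop : IsCoprime N F := by
      refine ⟨C (4 * a ^ 3 + 27 * b ^ 2)⁻¹ * (3 * X ^ 2 + 4 * C a),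
        -(C (4 * a ^ 3 + 27 * b ^ 2)⁻¹ * C (4 : L)⁻¹ * (3 * X ^ 3 - 5 * C a * X - 27 * C b)), ?_⟩
      have e1 : (C (4 * a ^ 3 + 27 * b ^ 2)⁻¹ * (4 * C a ^ 3 + 27 * C b ^ 2) : L[X]) = 1 := by
        have e2 : (4 * C a ^ 3 + 27 * C b ^ 2 : L[X]) = C (4 * a ^ 3 + 27 * b ^ 2) := by
          rw [map_add, map_mul, map_mul, map_pow, map_pow, map_ofNat, map_ofNat]
        rw [e2, ← C_mul, inv_mul_cancel₀ hdisc, C_1]
      have e3 : (C (4 : L)⁻¹ * C (4 : L) : L[X]) = 1 := by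
        rw [← C_mul, inv_mul_cancel₀ h4', C_1]
      rw [hN, hF]
      linear_combination e1 - (C (4 * a ^ 3 + 27 * b ^ 2)⁻¹ *
        (3 * X ^ 3 - 5 * C a * X - 27 * C b) * (X ^ 3 + C a * X + C b)) * e3
    have hR := dsc_dg N F hN0 hF0 hcop
    rw [hNd, hFd] at hR
    have hθR : θ (algebraMap L[X] (RatFunc L) N / algebraMap L[X] (RatFunc L) F) = W := by
      have e1 : algebraMap L[X] (RatFunc L) N = RatFunc.X ^ 4 - 2 * RatFunc.C a * RatFunc.X ^ 2 -
          8 * RatFunc.C b * RatFunc.X + RatFunc.C a ^ 2 := by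
        rw [hN]
        simp only [map_add, map_sub, map_mul, map_pow, map_ofNat, RatFunc.algebraMap_X,
          RatFunc.algebraMap_C]
      have e2 : algebraMap L[X] (RatFunc L) F = 4 * (RatFunc.X ^ 3 + RatFunc.C a * RatFunc.X +
          RatFunc.C b) := by
        rw [hF]
        simp only [map_add, map_mul, map_pow, map_ofNat, RatFunc.algebraMap_X,
          RatFunc.algebraMap_C]
      rw [e1, e2, hWe]
      unfold wei
      simp only [map_div₀, map_add, map_sub, map_mul, map_pow, map_ofNat, hθ, hCθ]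
    have h5 := hdg θ (algebraMap L[X] (RatFunc L) N / algebraMap L[X] (RatFunc L) F)
    rw [hθR, hR, hθ] at h5
    exact h5

end Pool.Agent.Helper58.RK
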