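import Pool.Agent.Helper1.RK.StC

/-! Project RK (owner helper1), module HLF: the half of a point. -/

set_option autoImplicit false

namespace Pool.Agent.Helper58.RK

open Pool.Agent.Helper1.RK Polynomial

theorem hlf_key {K : Type} [CommRing K] (w d1 d2 α β y : K) (hα : α ^ 2 * w = w - d1)
    (hβ : β ^ 2 * w = w - d2) :
    (y - w * (1 + α) * (1 + β)) * (y - w * (1 + α) * (1 - β)) *
      ((y - w * (1 - α) * (1 + β)) * (y - w * (1 - α) * (1 - β))) =
      (y ^ 2 - d1 * d2) ^ 2 - 4 * w * (y * (y - d1) * (y - d2)) := by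
  have h1 : (y - w * (1 + α) * (1 + β)) * (y - w * (1 + α) * (1 - β)) =
      y ^ 2 - 2 * w * y * (1 + α) + w * (1 + α) ^ 2 * d2 := by
    linear_combination (-(w * (1 + α) ^ 2)) * hβ
  have h2 : (y - w * (1 - α) * (1 + β)) * (y - w * (1 - α) * (1 - β)) =
      y ^ 2 - 2 * w * y * (1 - α) + w * (1 - α) ^ 2 * d2 := by
    linear_combination (-(w * (1 - α) ^ 2)) * hβ
  rw [h1, h2]
  linear_combination (d2 * ((y ^ 2 - 2 * w * y + w * d2 * (1 + α ^ 2)) +
    (y ^ 2 - 2 * w * y + 2 * w * d2 - d1 * d2)) - 4 * w * (y - d2) ^ 2) * hα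

theorem hlf_poly {K : Type} [CommRing K] (a b e0 e1 e2 W Y : K) (hs : e0 + e1 + e2 = 0)
    (ha : a = e0 * e1 + e0 * e2 + e1 * e2) (hb : b = - (e0 * e1 * e2)) :
    Y ^ 4 - 2 * a * Y ^ 2 - 8 * b * Y + a ^ 2 - 4 * W * (Y ^ 3 + a * Y + b) =
      ((Y - e0) ^ 2 - (e1 - e0) * (e2 - e0)) ^ 2 -
        4 * (W - e0) * ((Y - e0) * ((Y - e0) - (e1 - e0)) * ((Y - e0) - (e2 - e0))) := by
  have h2 : e2 = - e0 - e1 := by linear_combination hs
  subst h2
  subst ha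
  subst hb
  ring

/-- the square root of `(W - e1) / (W - e0)` with value `1` at `τ` -/
theorem hlf_root (h1 : StORD) (h2 : StREG) (h3 : StIOT) (h4 : StSQR)
    {L : Type} [Field L] [CharZero L] [IsAlgClosed L] {a b τ : L} {W : RatFunc L}
    (hW : ¬ Cst W) (hodd : ∀ p, Odd (ord p (wei a b W)) → ¬ Reg p W) (hτ : ¬ Reg τ W)
    {e0 e1 e2 : L} (h01 : e0 ≠ e1) (h02 : e0 ≠ e2) (h12 : e1 ≠ e2)
    (hw : wei a b W = (W - RatFunc.C e0) * (W - RatFunc.C e1) * (W - RatFunc.C e2)) :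
    ∃ α : RatFunc L, α ^ 2 * (W - RatFunc.C e0) = W - RatFunc.C e1 ∧ Reg τ α ∧ ev τ α = 1 := by
  obtain ⟨ι, hι⟩ := (h3 L).1
  have hne : ∀ e : L, W - RatFunc.C e ≠ 0 := fun e h => hW ⟨e, sub_eq_zero.1 h⟩
  have hpole : ∀ (p e : L), ¬ Reg p W → ord p (W - RatFunc.C e) = ord p W := by
    intro p e hp
    obtain ⟨o1, omul, oinv, oneg, opow, oadd, oadd', oC, oX, oX'⟩ := h1 L p
    obtain ⟨r1, r2, r3, r4, r5, r6, r7, r8, r9⟩ := h2 L p
    obtain ⟨hW0, hWn⟩ := (r3 W).1 hp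
    by_cases he : e = 0
    · rw [he, map_zero, sub_zero]
    · have hc : (-RatFunc.C e : RatFunc L) ≠ 0 :=
        neg_ne_zero.2 ((map_ne_zero (RatFunc.C : L →+* RatFunc L)).2 he)
      rw [sub_eq_add_neg]
      refine (oadd' W (-RatFunc.C e) hW0 hc ?_).2
      rw [oneg, oC]
      exact hWn
  have heven : ∀ p, Even (ord p ((W - RatFunc.C e0) * (W - RatFunc.C e1))) := by
    intro p
    obtain ⟨o1, omul, oinv, oneg, opow, oadd, oadd', oC, oX, oX'⟩ := h1 L p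
    obtain ⟨r1, r2, r3, r4, r5, r6, r7, r8, r9⟩ := h2 L p
    rw [omul _ _ (hne e0) (hne e1)]
    by_cases hp : Reg p W
    · have hreg : ∀ e, 0 ≤ ord p (W - RatFunc.C e) ∧
          (ord p (W - RatFunc.C e) = 0 ∨ ev p W = e) := by
        intro e
        obtain ⟨s1, s2, s3, s4, s5, s6⟩ := r7 W (RatFunc.C e) hp (r5 e).1
        have hr : 0 ≤ ord p (W - RatFunc.C e) := ((r2 _).1 s5).resolve_left (hne e)
        refine ⟨hr, ?_⟩
        by_cases hev : ev p W = e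
        · exact Or.inr hev
        · left
          have h5 : ev p (W - RatFunc.C e) ≠ 0 := by
            rw [s6, (r5 e).2]
            exact sub_ne_zero.2 hev
          have h6 := (r4 _ s5).not.1 h5
          push Not at h6
          have := h6.2
          omega
      have hne' : ¬ Odd (ord p (wei a b W)) := fun h => hodd p h hp
      rw [hw, omul _ _ (mul_ne_zero (hne e0) (hne e1)) (hne e2), omul _ _ (hne e0) (hne e1),
        Int.not_odd_iff_even] at hne'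
      obtain ⟨a0, b0⟩ := hreg e0
      obtain ⟨a1, b1⟩ := hreg e1
      obtain ⟨a2, b2⟩ := hreg e2
      rcases b2 with b2 | b2
      · rw [b2, add_zero] at hne'
        exact hne'
      · rcases b0 with b0 | b0
        · rcases b1 with b1 | b1
          · rw [b0, b1]
            exact ⟨0, rfl⟩
          · exact absurd (b1.symm.trans b2) h12
        · exact absurd (b0.symm.trans b2) h02
    · rw [hpole p e0 hp, hpole p e1 hp]
      exact ⟨_, rfl⟩
  obtain ⟨A, hA⟩ := (h4 L ι hι _ (mul_ne_zero (hne e0) (hne e1))).1 heven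
  obtain ⟨o1, omul, oinv, oneg, opow, oadd, oadd', oC, oX, oX'⟩ := h1 L τ
  obtain ⟨r1, r2, r3, r4, r5, r6, r7, r8, r9⟩ := h2 L τ
  have hw0 := hne e0
  set w := W - RatFunc.C e0 with hwdef
  have hordw : ord τ w < 0 := by
    rw [hwdef, hpole τ e0 hτ]
    exact ((r3 W).1 hτ).2
  have hwi : Reg τ w⁻¹ ∧ ev τ w⁻¹ = 0 := by
    have h5 : 1 ≤ ord τ w⁻¹ := by
      rw [oinv]
      omega
    have h6 : Reg τ w⁻¹ := (r2 _).2 (Or.inr (by omega))
    exact ⟨h6, (r4 _ h6).2 (Or.inr h5)⟩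
  obtain ⟨α, hα⟩ : ∃ α, α = A / w := ⟨_, rfl⟩
  have hα2 : α ^ 2 * w = W - RatFunc.C e1 := by
    rw [hα]
    field_simp
    rw [pow_two, ← hA]
  have hα3 : α * α = RatFunc.C 1 - RatFunc.C (e1 - e0) * w⁻¹ := by
    have h5 : α * α * w = (RatFunc.C 1 - RatFunc.C (e1 - e0) * w⁻¹) * w := by
      rw [← pow_two, hα2, sub_mul, mul_assoc, inv_mul_cancel₀ hw0, map_one, map_sub, hwdef]
      ring
    exact mul_right_cancel₀ hw0 h5
  have hαα : Reg τ (α * α) ∧ ev τ (α * α) = 1 := by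
    obtain ⟨s1, s2, s3, s4, s5, s6⟩ := r7 (RatFunc.C (e1 - e0)) w⁻¹ (r5 _).1 hwi.1
    obtain ⟨t1, t2, t3, t4, t5, t6⟩ := r7 (RatFunc.C 1) (RatFunc.C (e1 - e0) * w⁻¹) (r5 _).1 s3
    rw [hα3]
    refine ⟨t5, ?_⟩
    rw [t6, s4, (r5 _).2, hwi.2, mul_zero, sub_zero]
  have hα0 : α ≠ 0 := by
    intro h
    rw [h, mul_zero] at hαα
    have h5 := hαα.2
    have h6 : ev τ (0 : RatFunc L) = 0 := by
      have h7 := (r5 (0 : L)).2
      rwa [map_zero] at h7
    rw [h6] at h5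
    exact zero_ne_one h5
  have hαR : Reg τ α := by
    rw [r2]
    right
    have h5 := ((r2 _).1 hαα.1).resolve_left (mul_ne_zero hα0 hα0)
    rw [omul _ _ hα0 hα0] at h5
    omega
  obtain ⟨s1, s2, s3, s4, s5, s6⟩ := r7 α α hαR hαR
  have hsq : ev τ α * ev τ α = 1 := by rw [← s4, hαα.2]
  rcases mul_self_eq_one_iff.1 hsq with h5 | h5
  · exact ⟨α, hα2, hαR, h5⟩
  · refine ⟨-α, ?_, (r8 α hαR).1, ?_⟩
    · rw [neg_sq]
      exact hα2
    · rw [(r8 α hαR).2, h5, neg_neg]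

theorem pHLF (h1 : StORD) (h2 : StREG) (h3 : StIOT) (h4 : StSQR) (h5 : StLEG) : StHLF := by
  intro L _ _ _ a b τ W hb hdisc hW hodd hτ
  obtain ⟨e0, e1, e2, h01, h02, h12, hprod, -, -, -⟩ := h5 L a b hb hdisc
  -- relations
  have hx : ∀ x : L, x ^ 3 + a * x + b = (x - e0) * (x - e1) * (x - e2) := by
    intro x
    have h6 := hprod (RatFunc.C x)
    apply (RatFunc.C : L →+* RatFunc L).injective
    unfold wei at h6
    simp only [map_add, map_mul, map_sub, map_pow]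
    exact h6
  have r0 := hx 0
  have r1 := hx 1
  have r2 := hx (-1)
  have hbE : b = -(e0 * e1 * e2) := by linear_combination r0
  have hsum : e0 + e1 + e2 = 0 := by
    have h6 : (2 : L) * (e0 + e1 + e2) = 0 := by linear_combination r1 + r2 - 2 * r0
    exact (mul_eq_zero.1 h6).resolve_left two_ne_zero
  have haE : a = e0 * e1 + e0 * e2 + e1 * e2 := by
    have h6 : (2 : L) * a = 2 * (e0 * e1 + e0 * e2 + e1 * e2) := by linear_combination r1 - r2
    exact mul_left_cancel₀ two_ne_zero h6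
  have HbE : (RatFunc.C b : RatFunc L) = -(RatFunc.C e0 * RatFunc.C e1 * RatFunc.C e2) := by
    rw [hbE]; simp
  have Hsum : (RatFunc.C e0 + RatFunc.C e1 + RatFunc.C e2 : RatFunc L) = 0 := by
    rw [← map_add, ← map_add, hsum, map_zero]
  have HaE : (RatFunc.C a : RatFunc L) = RatFunc.C e0 * RatFunc.C e1 +
      RatFunc.C e0 * RatFunc.C e2 + RatFunc.C e1 * RatFunc.C e2 := by
    rw [haE]; simp
  -- the square roots
  obtain ⟨α, hα, hαR, hα1⟩ := hlf_root h1 h2 h3 h4 hW hodd hτ h01 h02 h12 (hprod W)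
  obtain ⟨β, hβ, hβR, hβ1⟩ := hlf_root h1 h2 h3 h4 (e1 := e2) (e2 := e1) hW hodd hτ h02 h01
    h12.symm (by rw [hprod W]; ring)
  have hne : ∀ e : L, W - RatFunc.C e ≠ 0 := fun e h => hW ⟨e, sub_eq_zero.1 h⟩
  have hα' : α ^ 2 * (W - RatFunc.C e0) = (W - RatFunc.C e0) - (RatFunc.C e1 - RatFunc.C e0) := by
    rw [hα]; ring
  have hβ' : β ^ 2 * (W - RatFunc.C e0) = (W - RatFunc.C e0) - (RatFunc.C e2 - RatFunc.C e0) := by
    rw [hβ]; ring
  have hiff : ∀ Y : RatFunc L, Dbl a b W Y ↔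
      ((Y - RatFunc.C e0) - (W - RatFunc.C e0) * (1 + α) * (1 + β)) *
      ((Y - RatFunc.C e0) - (W - RatFunc.C e0) * (1 + α) * (1 - β)) *
      (((Y - RatFunc.C e0) - (W - RatFunc.C e0) * (1 - α) * (1 + β)) *
      ((Y - RatFunc.C e0) - (W - RatFunc.C e0) * (1 - α) * (1 - β))) = 0 := by
    intro Y
    rw [hlf_key _ _ _ _ _ _ hα' hβ', ← hlf_poly (RatFunc.C a) (RatFunc.C b) _ _ _ W Y Hsum HaE HbE,
      sub_eq_zero]
    rfl
  obtain ⟨o1, omul, oinv, oneg, opow, oadd, oadd', oC, oX, oX'⟩ := h1 L τ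
  obtain ⟨q1, q2, q3, q4, q5, q6, q7, q8, q9⟩ := h2 L τ
  have hCR : ∀ e : L, Reg τ (RatFunc.C e) := fun e => (q5 e).1
  have h1R : Reg τ (1 : RatFunc L) ∧ ev τ (1 : RatFunc L) = 1 := by
    have h6 := q5 (1 : L)
    rwa [map_one] at h6
  -- 1 + α, 1 + β are units at τ
  have hu : ∀ γ : RatFunc L, Reg τ γ → ev τ γ = 1 →
      Reg τ (1 + γ) ∧ ev τ (1 + γ) = 2 ∧ Reg τ (1 + γ)⁻¹ ∧ 1 + γ ≠ 0 := by
    intro γ hγ hγ1
    obtain ⟨s1, s2, -, -, -, -⟩ := q7 1 γ h1R.1 hγ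
    have h6 : ev τ (1 + γ) = 2 := by
      rw [s2, h1R.2, hγ1]
      norm_num
    have h7 : ev τ (1 + γ) ≠ 0 := by
      rw [h6]
      exact two_ne_zero
    refine ⟨s1, h6, (q9 _ s1 h7).1, ?_⟩
    intro h8
    apply h7
    exact (q4 _ s1).2 (Or.inl h8)
  obtain ⟨u1, u2, u3, u4⟩ := hu α hαR hα1
  obtain ⟨v1, v2, v3, v4⟩ := hu β hβR hβ1
  have hWR : ¬ Reg τ (W - RatFunc.C e0) := by
    intro h
    apply hτ
    have h6 := (q7 _ _ h (hCR e0)).1
    rwa [sub_add_cancel] at h6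
  -- regularity of w (1 - α)
  have hreg : ∀ (γ : RatFunc L) (e : L), γ ^ 2 * (W - RatFunc.C e0) =
      (W - RatFunc.C e0) - (RatFunc.C e - RatFunc.C e0) → Reg τ (1 + γ)⁻¹ → 1 + γ ≠ 0 →
      Reg τ ((W - RatFunc.C e0) * (1 - γ)) := by
    intro γ e hγ h6 h7
    have h8 : (W - RatFunc.C e0) * (1 - γ) = RatFunc.C (e - e0) * (1 + γ)⁻¹ := by
      rw [eq_mul_inv_iff_mul_eq₀ h7, map_sub]
      linear_combination (-1 : RatFunc L) * hγ
    rw [h8]
    exact (q7 _ _ (hCR _) h6).2.2.1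
  refine ⟨RatFunc.C e0 + (W - RatFunc.C e0) * (1 + α) * (1 + β), ?_, ?_, ?_⟩
  · intro h
    apply hWR
    have h6 := (q7 _ _ h (hCR e0)).2.2.2.2.1
    have h7 : W - RatFunc.C e0 = (RatFunc.C e0 + (W - RatFunc.C e0) * (1 + α) * (1 + β) -
        RatFunc.C e0) * (1 + β)⁻¹ * (1 + α)⁻¹ := by
      field_simp
      ring
    rw [h7]
    exact (q7 _ _ (q7 _ _ h6 v3).2.2.1 u3).2.2.1
  · rw [hiff]
    have h6 : RatFunc.C e0 + (W - RatFunc.C e0) * (1 + α) * (1 + β) - RatFunc.C e0 -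
        (W - RatFunc.C e0) * (1 + α) * (1 + β) = 0 := by ring
    rw [h6, zero_mul, zero_mul]
  · intro Y' hY' hD
    rw [hiff] at hD
    have hbad : ∀ g : RatFunc L, Reg τ g → Y' - RatFunc.C e0 - g = 0 → False := by
      intro g hg h6
      apply hY'
      have h7 : Y' = g + RatFunc.C e0 := by linear_combination h6
      rw [h7]
      exact (q7 _ _ hg (hCR e0)).1
    rcases mul_eq_zero.1 hD with h6 | h6
    · rcases mul_eq_zero.1 h6 with h7 | h7
      · linear_combination h7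
      · exfalso
        refine hbad _ ?_ h7
        have h8 := (q7 _ _ u1 (hreg β e2 hβ' v3 v4)).2.2.1
        have h9 : (W - RatFunc.C e0) * (1 + α) * (1 - β) =
            (1 + α) * ((W - RatFunc.C e0) * (1 - β)) := by ring
        rw [h9]
        exact h8
    · rcases mul_eq_zero.1 h6 with h7 | h7
      · exfalso
        refine hbad _ ?_ h7
        exact (q7 _ _ (hreg α e1 hα' u3 u4) v1).2.2.1
      · exfalso
        refine hbad _ ?_ h7
        exact (q7 _ _ (hreg α e1 hα' u3 u4) (q7 _ _ h1R.1 hβR).2.2.2.2.1).2.2.1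

end Pool.Agent.Helper58.RK
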