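import Pool.Agent.Helper1.RK.StC

/-! Project RK (owner helper1), module LEG: the Legendre form. -/

set_option autoImplicit false

namespace Pool.Agent.Helper58.RK

open Pool.Agent.Helper1.RK Polynomial

theorem leg_roots {L : Type} [Field L] [CharZero L] [IsAlgClosed L] (a b : L) :
    ∃ e0 e1 e2 : L, e0 + e1 + e2 = 0 ∧ a = e0 * e1 + e0 * e2 + e1 * e2 ∧
      b = -(e0 * e1 * e2) := by
  obtain ⟨e0, he0⟩ : ∃ e0 : L, e0 ^ 3 + a * e0 + b = 0 := by
    have hdeg : (X ^ 3 + C a * X + C b : L[X]).degree ≠ 0 := by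
      have h1 : (X ^ 3 + C a * X + C b : L[X]).degree = 3 := by compute_degree!
      rw [h1]
      decide
    obtain ⟨x, hx⟩ := IsAlgClosed.exists_root (X ^ 3 + C a * X + C b : L[X]) hdeg
    refine ⟨x, ?_⟩
    have h2 : (X ^ 3 + C a * X + C b : L[X]).eval x = 0 := hx
    simpa using h2
  obtain ⟨δ, hδ⟩ := IsAlgClosed.exists_eq_mul_self (-3 * e0 ^ 2 - 4 * a)
  have h2 : (2 : L) ≠ 0 := two_ne_zero
  refine ⟨e0, (-e0 + δ) / 2, (-e0 - δ) / 2, ?_, ?_, ?_⟩
  · field_simp
    ring
  · field_simp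
    linear_combination (-1 : L) * hδ
  · field_simp
    linear_combination (4 : L) * he0 + e0 * hδ

theorem leg_div {L : Type} [Field L] (d : Derivation ℤ L L) {x t : L} (ht : t ≠ 0)
    (hx : d x = 0) (hdt : d t = 0) : d (x / t) = 0 := by
  have h1 : x / t * t = x := div_mul_cancel₀ x ht
  have h2 := congrArg d h1
  rw [Derivation.leibniz, hx, hdt, smul_zero, zero_add, smul_eq_mul] at h2
  exact (mul_eq_zero.1 h2).resolve_left ht

theorem pLEG : StLEG := by
  intro L _ _ _ a b hb hdisc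
  obtain ⟨e0, e1, e2, hs, ha, hbE⟩ := leg_roots a b
  have hd : 4 * a ^ 3 + 27 * b ^ 2 = -((e0 - e1) * (e0 - e2) * (e1 - e2)) ^ 2 := by
    have h2 : e2 = -e0 - e1 := by linear_combination hs
    rw [ha, hbE, h2]
    ring
  have hne : (e0 - e1) * (e0 - e2) * (e1 - e2) ≠ 0 := by
    intro h
    apply hdisc
    rw [hd, h]
    ring
  have h01 : e0 ≠ e1 := fun h => hne (by rw [h]; ring)
  have h02 : e0 ≠ e2 := fun h => hne (by rw [h]; ring)
  have h12 : e1 ≠ e2 := fun h => hne (by rw [h]; ring)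
  have ht : e1 - e0 ≠ 0 := sub_ne_zero.2 h01.symm
  have HbE : (RatFunc.C b : RatFunc L) = -(RatFunc.C e0 * RatFunc.C e1 * RatFunc.C e2) := by
    rw [hbE]; simp
  have Hsum : (RatFunc.C e0 + RatFunc.C e1 + RatFunc.C e2 : RatFunc L) = 0 := by
    rw [← map_add, ← map_add, hs, map_zero]
  have HaE : (RatFunc.C a : RatFunc L) = RatFunc.C e0 * RatFunc.C e1 +
      RatFunc.C e0 * RatFunc.C e2 + RatFunc.C e1 * RatFunc.C e2 := by
    rw [ha]; simp
  have hw : ∀ u : RatFunc L, wei a b u =
      (u - RatFunc.C e0) * (u - RatFunc.C e1) * (u - RatFunc.C e2) := by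
    intro u
    unfold wei
    rw [HaE, HbE]
    linear_combination (u ^ 2) * Hsum
  have hroot : ∀ (d : Derivation ℤ L L), d a = 0 → d b = 0 → ∀ e : L,
      e ^ 3 + a * e + b = 0 → 3 * e ^ 2 + a ≠ 0 → d e = 0 := by
    intro d hda hdb e he h3
    have h1 := congrArg d he
    have h2 : e ^ 3 = e * (e * e) := by ring
    rw [h2, map_add, map_add, map_zero, Derivation.leibniz, Derivation.leibniz,
      Derivation.leibniz, hda, hdb] at h1
    simp only [smul_eq_mul] at h1
    have h4 : (3 * e ^ 2 + a) * d e = 0 := by linear_combination h1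
    exact (mul_eq_zero.1 h4).resolve_left h3
  have hz0 : e0 ^ 3 + a * e0 + b = 0 := by rw [ha, hbE]; linear_combination (e0 ^ 2) * hs
  have hz1 : e1 ^ 3 + a * e1 + b = 0 := by rw [ha, hbE]; linear_combination (e1 ^ 2) * hs
  have hz2 : e2 ^ 3 + a * e2 + b = 0 := by rw [ha, hbE]; linear_combination (e2 ^ 2) * hs
  have hk0 : 3 * e0 ^ 2 + a ≠ 0 := by
    have h1 : 3 * e0 ^ 2 + a = (e0 - e1) * (e0 - e2) := by
      rw [ha]; linear_combination (2 * e0) * hs
    rw [h1]
    exact mul_ne_zero (sub_ne_zero.2 h01) (sub_ne_zero.2 h02)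
  have hk1 : 3 * e1 ^ 2 + a ≠ 0 := by
    have h1 : 3 * e1 ^ 2 + a = (e1 - e0) * (e1 - e2) := by
      rw [ha]; linear_combination (2 * e1) * hs
    rw [h1]
    exact mul_ne_zero (sub_ne_zero.2 h01.symm) (sub_ne_zero.2 h12)
  have hk2 : 3 * e2 ^ 2 + a ≠ 0 := by
    have h1 : 3 * e2 ^ 2 + a = (e2 - e0) * (e2 - e1) := by
      rw [ha]; linear_combination (2 * e2) * hs
    rw [h1]
    exact mul_ne_zero (sub_ne_zero.2 h02.symm) (sub_ne_zero.2 h12.symm)
  refine ⟨e0, e1, e2, h01, h02, h12, hw, ?_, ?_, ?_⟩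
  · intro u
    have hT : (RatFunc.C (e1 - e0) : RatFunc L) ≠ 0 :=
      (map_ne_zero (RatFunc.C : L →+* RatFunc L)).2 ht
    rw [hw]
    unfold leg
    have h1 : (RatFunc.C ((e1 - e0) ^ 3) : RatFunc L) = RatFunc.C (e1 - e0) ^ 3 := map_pow _ _ _
    have h2 : (RatFunc.C ((e2 - e0) / (e1 - e0)) : RatFunc L) =
        (RatFunc.C e2 - RatFunc.C e0) / RatFunc.C (e1 - e0) := by
      rw [map_div₀, map_sub]
    have h3 : (RatFunc.C e1 : RatFunc L) = RatFunc.C (e1 - e0) + RatFunc.C e0 := by
      rw [← map_add, sub_add_cancel]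
    rw [h1, h2, h3]
    generalize RatFunc.C (e1 - e0) = T at hT ⊢
    field_simp
    ring
  · intro d hda hdb
    have d0 := hroot d hda hdb e0 hz0 hk0
    have d1 := hroot d hda hdb e1 hz1 hk1
    have d2 := hroot d hda hdb e2 hz2 hk2
    refine ⟨d0, d1, d2, leg_div d ht ?_ ?_⟩
    · rw [map_sub, d2, d0, sub_zero]
    · rw [map_sub, d1, d0, sub_zero]
  · intro d hda hdb hlam
    obtain ⟨t, hte⟩ : ∃ t, t = e1 - e0 := ⟨_, rfl⟩
    rw [← hte] at ht hlam
    obtain ⟨l, hl⟩ : ∃ l, l = (e2 - e0) / t := ⟨_, rfl⟩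
    rw [← hl] at hlam
    obtain ⟨c, hc⟩ : ∃ c, c = e0 / t := ⟨_, rfl⟩
    have hct : e0 = c * t := by rw [hc]; field_simp
    have hlt : e2 = (c + l) * t := by
      rw [hc, hl]
      field_simp
      ring
    have h1t : e1 = (c + 1) * t := by
      rw [hc, hte]
      rw [hte] at ht
      field_simp
      ring
    have hcl : c + c + c + 1 + l = 0 := by
      have h1 : (c + c + c + 1 + l) * t = 0 := by
        rw [hct, hlt, h1t] at hs
        linear_combination hs
      exact (mul_eq_zero.1 h1).resolve_right ht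
    have hd1 : d (1 : L) = 0 := Derivation.map_one_eq_zero d
    have hdc : d c = 0 := by
      have h1 := congrArg d hcl
      rw [map_add, map_add, map_add, map_add, map_zero, hd1, hlam] at h1
      have h2 : (3 : L) * d c = 0 := by linear_combination h1
      exact (mul_eq_zero.1 h2).resolve_left three_ne_zero
    have hbt : b = -(c * ((c + 1) * (c + l))) * (t * (t * t)) := by
      rw [hbE, hct, hlt, h1t]
      ring
    have hdk : d (-(c * ((c + 1) * (c + l)))) = 0 := by
      rw [map_neg, Derivation.leibniz, Derivation.leibniz, map_add, map_add, hdc, hlam, hd1]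
      simp
    have hdt : d t = 0 := by
      have h1 := congrArg d hbt
      rw [hdb, Derivation.leibniz, hdk, Derivation.leibniz, Derivation.leibniz] at h1
      simp only [smul_eq_mul] at h1
      have hk : -(c * ((c + 1) * (c + l))) ≠ 0 := by
        intro h
        apply hb
        rw [hbt, h, zero_mul]
      have h3 : (-(c * ((c + 1) * (c + l))) * (3 * t ^ 2)) * d t = 0 := by
        linear_combination (-1 : L) * h1
      refine (mul_eq_zero.1 h3).resolve_left ?_
      exact mul_ne_zero hk (mul_ne_zero three_ne_zero (pow_ne_zero 2 ht))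
    have hda0 : d a = 0 := by
      have h1 : a = (c * (c + 1) + c * (c + l) + (c + 1) * (c + l)) * (t * t) := by
        rw [ha, hct, hlt, h1t]
        ring
      rw [h1, Derivation.leibniz, Derivation.leibniz, hdt, map_add, map_add, Derivation.leibniz,
        Derivation.leibniz, Derivation.leibniz, map_add, map_add, hdc, hlam, hd1]
      simp
    rw [hda] at hda0
    exact one_ne_zero hda0

end Pool.Agent.Helper58.RK
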