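import Pool.Agent.Helper1.RK.StD

/-! Project RK (owner helper1), module ULA: ultraproduct of parametric solutions. -/

set_option autoImplicit false

namespace Pool.Agent.Helper58.RK

open Pool.Agent.Helper1.RK Polynomial

/-- the ultrapower -/
theorem ula_field : ∃ (L : Type) (_ : Field L) (_ : CharZero L) (_ : IsAlgClosed L)
    (Φ : (ℕ → ℂ) →+* L), ∀ f : ℕ → ℂ, Φ f = 0 ↔
      ∀ᶠ m in (Filter.hyperfilter ℕ : Filter ℕ), f m = 0 := by
  let G := Filter.Germ ((Filter.hyperfilter ℕ : Ultrafilter ℕ) : Filter ℕ) ℂ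
  let L := AlgebraicClosure G
  let Φ : (ℕ → ℂ) →+* L := (algebraMap G L).comp
    (Filter.Germ.coeRingHom ((Filter.hyperfilter ℕ : Ultrafilter ℕ) : Filter ℕ))
  have hinj : Function.Injective (Φ.comp (Pi.constRingHom ℕ ℂ)) := RingHom.injective _
  refine ⟨L, inferInstance, charZero_of_injective_ringHom hinj, inferInstance, Φ, ?_⟩
  intro f
  change (algebraMap G L) ((f : ℕ → ℂ) : G) = 0 ↔ _
  rw [map_eq_zero_iff _ (algebraMap G L).injective]
  change ((f : ℕ → ℂ) : G) = ((0 : ℕ → ℂ) : G) ↔ _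
  rw [Filter.Germ.coe_eq]
  rfl

section

/-- evaluation of the coefficients at `m` -/
noncomputable def evm (m : ℕ) (P : (ℕ → ℂ)[X]) : ℂ[X] := P.map (Pi.evalRingHom (fun _ => ℂ) m)

theorem evm_ext {P Q : (ℕ → ℂ)[X]} (h : ∀ m, evm m P = evm m Q) : P = Q := by
  ext n m
  have h1 := congrArg (fun p => coeff p n) (h m)
  simp only [evm, coeff_map] at h1
  exact h1

theorem evm_lift (p : ℕ → ℂ[X]) (B : ℕ) (hB : ∀ m, (p m).natDegree ≤ B) :
    ∃ P : (ℕ → ℂ)[X], ∀ m, evm m P = p m := by
  refine ⟨∑ n ∈ Finset.range (B + 1), C (fun m => (p m).coeff n) * X ^ n, ?_⟩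
  intro m
  rw [evm, Polynomial.map_sum]
  have h1 := (p m).as_sum_range' (B + 1) (Nat.lt_succ_of_le (hB m))
  conv_rhs => rw [h1]
  refine Finset.sum_congr rfl fun n _ => ?_
  rw [Polynomial.map_mul, Polynomial.map_pow, map_X, map_C, C_mul_X_pow_eq_monomial]
  rfl

theorem evm_ne {L : Type} [Field L] {Φ : (ℕ → ℂ) →+* L} (hΦ : ∀ f : ℕ → ℂ, Φ f = 0 ↔
      ∀ᶠ m in (Filter.hyperfilter ℕ : Filter ℕ), f m = 0) {P : (ℕ → ℂ)[X]}
    (h : ∀ᶠ m in (Filter.hyperfilter ℕ : Filter ℕ), evm m P ≠ 0) : P.map Φ ≠ 0 := by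
  intro h0
  have h1 : ∀ n, ∀ᶠ m in (Filter.hyperfilter ℕ : Filter ℕ), P.coeff n m = 0 := by
    intro n
    rw [← hΦ, ← coeff_map, h0, coeff_zero]
  have h2 : ∀ᶠ m in (Filter.hyperfilter ℕ : Filter ℕ), ∀ n ∈ Finset.range (P.natDegree + 1),
      P.coeff n m = 0 := by
    rw [Filter.eventually_all_finset]
    exact fun n _ => h1 n
  obtain ⟨m, hm, hm'⟩ := (h.and h2).exists
  apply hm
  ext n
  rw [evm, coeff_map, coeff_zero]
  by_cases hn : n < P.natDegree + 1
  · exact hm' n (Finset.mem_range.2 hn)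
  · rw [coeff_eq_zero_of_natDegree_lt (by omega)]
    rfl

end

theorem leg_div' {K : Type} [Field K] (l : K) (a b : K[X]) (hb : b ≠ 0) :
    leg l (algebraMap K[X] (RatFunc K) a / algebraMap K[X] (RatFunc K) b) =
      algebraMap K[X] (RatFunc K) (a * (a - b) * (a - C l * b)) /
        algebraMap K[X] (RatFunc K) b ^ 3 := by
  have hb' : algebraMap K[X] (RatFunc K) b ≠ 0 :=
    (map_ne_zero_iff _ (RatFunc.algebraMap_injective K)).2 hb
  unfold leg
  simp only [map_mul, map_sub, RatFunc.algebraMap_C]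
  field_simp

/-- the polynomial `R` -/
noncomputable def RR {K : Type} [CommRing K] (a b a' b' : K[X]) (l l' : K) : K[X] :=
  (a * (a - b) * (a - C l * b) * b) * (a' * (a' - b') * (a' - C l' * b') * b')

theorem RR_map {K K' : Type} [CommRing K] [CommRing K'] (f : K →+* K') (a b a' b' : K[X])
    (l l' : K) : (RR a b a' b' l l').map f =
      RR (a.map f) (b.map f) (a'.map f) (b'.map f) (f l) (f l') := by
  unfold RR
  simp only [Polynomial.map_mul, Polynomial.map_sub, map_C]

theorem RR_leg {K : Type} [Field K] (l l' : K) (a b a' b' : K[X]) (hb : b ≠ 0) (hb' : b' ≠ 0) :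
    algebraMap K[X] (RatFunc K) (RR a b a' b' l l') =
      (leg l (algebraMap K[X] (RatFunc K) a / algebraMap K[X] (RatFunc K) b) *
        leg l' (algebraMap K[X] (RatFunc K) a' / algebraMap K[X] (RatFunc K) b')) *
        ((algebraMap K[X] (RatFunc K) b * algebraMap K[X] (RatFunc K) b') ^ 2 *
          (algebraMap K[X] (RatFunc K) b * algebraMap K[X] (RatFunc K) b') ^ 2) := by
  have h1 : algebraMap K[X] (RatFunc K) b ≠ 0 :=
    (map_ne_zero_iff _ (RatFunc.algebraMap_injective K)).2 hb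
  have h2 : algebraMap K[X] (RatFunc K) b' ≠ 0 :=
    (map_ne_zero_iff _ (RatFunc.algebraMap_injective K)).2 hb'
  rw [leg_div' l a b hb, leg_div' l' a' b' hb']
  unfold RR
  simp only [map_mul]
  field_simp

theorem RR_sq {a b a' b' : ℂ[X]} {l l' : ℂ} (hb : b ≠ 0) (hb' : b' ≠ 0)
    (h : IsSquare (leg l (algebraMap ℂ[X] (RatFunc ℂ) a / algebraMap ℂ[X] (RatFunc ℂ) b) *
        leg l' (algebraMap ℂ[X] (RatFunc ℂ) a' / algebraMap ℂ[X] (RatFunc ℂ) b'))) :
    ∃ w : ℂ[X], w * w = RR a b a' b' l l' := by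
  obtain ⟨s, hs⟩ := h
  have h1 := RR_leg l l' a b a' b' hb hb'
  rw [hs] at h1
  set t : RatFunc ℂ := s * (algebraMap ℂ[X] (RatFunc ℂ) b * algebraMap ℂ[X] (RatFunc ℂ) b') ^ 2
    with ht
  have h2 : t ^ 2 = algebraMap ℂ[X] (RatFunc ℂ) (RR a b a' b' l l') := by
    rw [h1, ht]
    ring
  have h3 : IsIntegral ℂ[X] (t ^ 2) := by
    rw [h2]
    exact isIntegral_algebraMap
  obtain ⟨w, hw⟩ := IsIntegrallyClosed.exists_algebraMap_eq_of_isIntegral_pow two_pos h3
  refine ⟨w, ?_⟩
  apply RatFunc.algebraMap_injective ℂ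
  rw [map_mul, hw, ← h2]
  ring

theorem RR_deg {a b a' b' : ℂ[X]} {l l' : ℂ} {N : ℕ} (h1 : a.natDegree ≤ N) (h2 : b.natDegree ≤ N)
    (h3 : a'.natDegree ≤ N) (h4 : b'.natDegree ≤ N) : (RR a b a' b' l l').natDegree ≤ 8 * N := by
  have hsub : ∀ (p q : ℂ[X]) (x : ℂ), p.natDegree ≤ N → q.natDegree ≤ N →
      (p - C x * q).natDegree ≤ N := by
    intro p q x hp hq
    refine (natDegree_sub_le _ _).trans (max_le hp ?_)
    exact (natDegree_C_mul_le _ _).trans hq
  have hsub' : ∀ (p q : ℂ[X]), p.natDegree ≤ N → q.natDegree ≤ N → (p - q).natDegree ≤ N :=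
    fun p q hp hq => (natDegree_sub_le _ _).trans (max_le hp hq)
  have hmul : ∀ (p q : ℂ[X]) (A B : ℕ), p.natDegree ≤ A → q.natDegree ≤ B →
      (p * q).natDegree ≤ A + B := fun p q A B hp hq => natDegree_mul_le_of_le hp hq
  have e1 := hmul _ _ _ _ (hmul _ _ _ _ (hmul _ _ _ _ h1 (hsub' a b h1 h2))
    (hsub a b l h1 h2)) h2
  have e2 := hmul _ _ _ _ (hmul _ _ _ _ (hmul _ _ _ _ h3 (hsub' a' b' h3 h4))
    (hsub a' b' l' h3 h4)) h4
  have e3 := hmul _ _ _ _ e1 e2
  unfold RR
  omega

theorem cst_of_wr (g : RatFunc ℂ)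
    (h : derivative g.num * g.denom - g.num * derivative g.denom = 0) : Cst g := by
  have hc := RatFunc.isCoprime_num_denom g
  have h1 : g.denom ∣ derivative g.denom := by
    refine hc.symm.dvd_of_dvd_mul_left ⟨derivative g.num, ?_⟩
    linear_combination (-1 : ℂ[X]) * h
  have h2 : derivative g.denom = 0 := by
    by_contra h3
    have h4 := natDegree_le_of_dvd h1 h3
    have h5 : g.denom.natDegree ≠ 0 := by
      intro h6
      apply h3
      rw [eq_C_of_natDegree_eq_zero h6, derivative_C]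
    have h6 := natDegree_derivative_lt h5
    omega
  rw [h2, mul_zero, sub_zero] at h
  have h3 : derivative g.num = 0 := (mul_eq_zero.1 h).resolve_right g.denom_ne_zero
  have h4 := derivative_eq_zero.1 h2
  have h5 := derivative_eq_zero.1 h3
  refine ⟨g.num.coeff 0 / g.denom.coeff 0, ?_⟩
  have h6 := RatFunc.num_div_denom g
  rw [eq_C_of_natDegree_eq_zero h4, eq_C_of_natDegree_eq_zero h5, RatFunc.algebraMap_C,
    RatFunc.algebraMap_C, ← map_div₀] at h6
  exact h6.symm

theorem pULA : StULA := by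
  intro r N lam u hdeg hleg hsq hnc
  obtain ⟨L, iF, iC, iA, Φ, hΦ⟩ := ula_field
  have hNB : (Filter.hyperfilter ℕ : Filter ℕ).NeBot := inferInstance
  -- numerators and denominators
  have hbm : ∀ m i, (u m i).denom ≠ 0 := fun m i => (u m i).denom_ne_zero
  have hua : ∀ m i, u m i = algebraMap ℂ[X] (RatFunc ℂ) (u m i).num /
      algebraMap ℂ[X] (RatFunc ℂ) (u m i).denom := fun m i => (RatFunc.num_div_denom _).symm
  have hNn : ∀ m i, (u m i).num.natDegree ≤ N := fun m i => (le_max_left _ _).trans (hdeg m i)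
  have hNd : ∀ m i, (u m i).denom.natDegree ≤ N := fun m i => (le_max_right _ _).trans (hdeg m i)
  have hw : ∀ m i j, ∃ w : ℂ[X], w * w = RR (u m i).num (u m i).denom (u m j).num (u m j).denom
      (lam m i) (lam m j) := by
    intro m i j
    apply RR_sq (hbm m i) (hbm m j)
    rw [← hua, ← hua]
    exact hsq m i j
  choose w hw using hw
  have hwd : ∀ m i j, (w m i j).natDegree ≤ 4 * N := by
    intro m i j
    have h1 := RR_deg (l := lam m i) (l' := lam m j) (hNn m i) (hNd m i) (hNn m j) (hNd m j)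
    rw [← hw, ← pow_two, natDegree_pow] at h1
    omega
  choose A hA using fun i => evm_lift (fun m => (u m i).num) N (fun m => hNn m i)
  choose B hB using fun i => evm_lift (fun m => (u m i).denom) N (fun m => hNd m i)
  choose W hW using fun i j => evm_lift (fun m => w m i j) (4 * N) (fun m => hwd m i j)
  -- the identity
  have hid : ∀ i j, W i j * W i j = RR (A i) (B i) (A j) (B j) (fun m => lam m i)
      (fun m => lam m j) := by
    intro i j
    apply evm_ext
    intro m
    have h1 : evm m (W i j * W i j) = evm m (W i j) * evm m (W i j) := Polynomial.map_mul _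
    have h2 : evm m (RR (A i) (B i) (A j) (B j) (fun m => lam m i) (fun m => lam m j)) =
        RR (evm m (A i)) (evm m (B i)) (evm m (A j)) (evm m (B j)) (lam m i) (lam m j) :=
      RR_map _ _ _ _ _ _ _
    rw [h1, h2, hW, hA, hB, hA, hB]
    exact hw m i j
  -- nonvanishing
  have hBne : ∀ i, (B i).map Φ ≠ 0 := by
    intro i
    refine evm_ne hΦ (Filter.Eventually.of_forall fun m => ?_)
    rw [hB]
    exact hbm m i
  have hfac : ∀ m i, (u m i).num ≠ 0 ∧ (u m i).num - (u m i).denom ≠ 0 ∧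
      (u m i).num - C (lam m i) * (u m i).denom ≠ 0 := by
    intro m i
    have h1 := hleg m i
    rw [hua m i, leg_div' _ _ _ (hbm m i)] at h1
    have h2 : (u m i).num * ((u m i).num - (u m i).denom) *
        ((u m i).num - C (lam m i) * (u m i).denom) ≠ 0 := by
      intro h3
      apply h1
      rw [h3, map_zero, zero_div]
    exact ⟨left_ne_zero_of_mul (left_ne_zero_of_mul h2), right_ne_zero_of_mul
      (left_ne_zero_of_mul h2), right_ne_zero_of_mul h2⟩
  have hPne : ∀ i, (A i).map Φ * ((A i).map Φ - (B i).map Φ) *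
      ((A i).map Φ - C (Φ fun m => lam m i) * (B i).map Φ) ≠ 0 := by
    intro i
    have e1 : (A i).map Φ ≠ 0 := by
      refine evm_ne hΦ (Filter.Eventually.of_forall fun m => ?_)
      rw [hA]
      exact (hfac m i).1
    have e2 : (A i).map Φ - (B i).map Φ ≠ 0 := by
      rw [← Polynomial.map_sub]
      refine evm_ne hΦ (Filter.Eventually.of_forall fun m => ?_)
      have h1 : evm m (A i - B i) = evm m (A i) - evm m (B i) := Polynomial.map_sub _
      rw [h1, hA, hB]
      exact (hfac m i).2.1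
    have e3 : (A i).map Φ - C (Φ fun m => lam m i) * (B i).map Φ ≠ 0 := by
      rw [← map_C, ← Polynomial.map_mul, ← Polynomial.map_sub]
      refine evm_ne hΦ (Filter.Eventually.of_forall fun m => ?_)
      have h1 : evm m (A i - C (fun m => lam m i) * B i) =
          evm m (A i) - C (lam m i) * evm m (B i) := by
        unfold evm
        rw [Polynomial.map_sub, Polynomial.map_mul, map_C]
        rfl
      rw [h1, hA, hB]
      exact (hfac m i).2.2
    exact mul_ne_zero (mul_ne_zero e1 e2) e3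
  have hinj := RatFunc.algebraMap_injective L
  refine ⟨L, iF, iC, iA, Φ, fun i => algebraMap L[X] (RatFunc L) ((A i).map Φ) /
    algebraMap L[X] (RatFunc L) ((B i).map Φ), ?_, ?_, ?_, ?_⟩
  · rintro f ⟨n, hn⟩ h0
    rw [hΦ] at h0
    have h1 : ∀ᶠ m in (Filter.hyperfilter ℕ : Filter ℕ), n ≤ m := by
      have h2 : ∀ᶠ m in (Filter.cofinite : Filter ℕ), n ≤ m := by
        rw [Nat.cofinite_eq_atTop]
        exact Filter.eventually_ge_atTop n
      exact h2.filter_mono Filter.hyperfilter_le_cofinite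
    obtain ⟨m, hm, hm'⟩ := (h0.and h1).exists
    exact hn m hm' hm
  · intro i
    rw [leg_div' _ _ _ (hBne i)]
    exact div_ne_zero ((map_ne_zero_iff _ hinj).2 (hPne i))
      (pow_ne_zero 3 ((map_ne_zero_iff _ hinj).2 (hBne i)))
  · intro i j
    have h1 := RR_leg (Φ fun m => lam m i) (Φ fun m => lam m j) ((A i).map Φ) ((B i).map Φ)
      ((A j).map Φ) ((B j).map Φ) (hBne i) (hBne j)
    have h2 : RR ((A i).map Φ) ((B i).map Φ) ((A j).map Φ) ((B j).map Φ)
        (Φ fun m => lam m i) (Φ fun m => lam m j) = (W i j).map Φ * (W i j).map Φ := by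
      rw [← RR_map, ← hid, Polynomial.map_mul]
    rw [h2] at h1
    have hne : (algebraMap L[X] (RatFunc L) ((B i).map Φ) *
        algebraMap L[X] (RatFunc L) ((B j).map Φ)) ^ 2 ≠ 0 :=
      pow_ne_zero 2 (mul_ne_zero ((map_ne_zero_iff _ hinj).2 (hBne i))
        ((map_ne_zero_iff _ hinj).2 (hBne j)))
    refine ⟨algebraMap L[X] (RatFunc L) ((W i j).map Φ) /
      (algebraMap L[X] (RatFunc L) ((B i).map Φ) *
        algebraMap L[X] (RatFunc L) ((B j).map Φ)) ^ 2, ?_⟩
    rw [div_mul_div_comm, eq_div_iff (mul_ne_zero hne hne), ← h1, map_mul]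
  · -- nonconstant
    have hex : ∃ i, ∀ᶠ m in (Filter.hyperfilter ℕ : Filter ℕ), ¬ Cst (u m i) := by
      by_contra hcon
      push Not at hcon
      have h2 : ∀ᶠ m in (Filter.hyperfilter ℕ : Filter ℕ), ∀ i, Cst (u m i) :=
        Filter.eventually_all.2 hcon
      obtain ⟨m, hm⟩ := h2.exists
      obtain ⟨i, hi⟩ := hnc m
      exact hi (hm i)
    obtain ⟨i, hi⟩ := hex
    refine ⟨i, ?_⟩
    rintro ⟨c, hc⟩
    have hB' : algebraMap L[X] (RatFunc L) ((B i).map Φ) ≠ 0 :=
      (map_ne_zero_iff _ hinj).2 (hBne i)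
    have h1 : (A i).map Φ = C c * (B i).map Φ := by
      apply hinj
      rw [map_mul, RatFunc.algebraMap_C]
      have h2 : algebraMap L[X] (RatFunc L) ((A i).map Φ) /
          algebraMap L[X] (RatFunc L) ((B i).map Φ) = RatFunc.C c := hc
      rw [div_eq_iff hB'] at h2
      exact h2
    have h2 : (derivative (A i) * B i - A i * derivative (B i)).map Φ = 0 := by
      rw [Polynomial.map_sub, Polynomial.map_mul, Polynomial.map_mul, ← derivative_map,
        ← derivative_map, h1, derivative_C_mul]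
      ring
    refine evm_ne hΦ ?_ h2
    filter_upwards [hi] with m hm h3
    apply hm
    apply cst_of_wr
    have h4 : evm m (derivative (A i) * B i - A i * derivative (B i)) =
        derivative (evm m (A i)) * evm m (B i) - evm m (A i) * derivative (evm m (B i)) := by
      unfold evm
      rw [Polynomial.map_sub, Polynomial.map_mul, Polynomial.map_mul, ← derivative_map,
        ← derivative_map]
    rw [h4, hA, hB] at h3
    exact h3

end Pool.Agent.Helper58.RK
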