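import Mathlib

/-!
Groups of finite special rank with a central system with torsion-free factors are nilpotent.
-/

set_option autoImplicit false

namespace Pool.Agent.Helper58.RK

open Subgroup
open scoped commutatorElement

/-- every finitely generated subgroup is generated by at most `r` elements -/
def SRank (G : Type*) [Group G] (r : ℕ) : Prop :=
  ∀ H : Subgroup G, H.FG → ∃ s : Finset G, s.card ≤ r ∧ Subgroup.closure (s : Set G) = H

/-- iterated commutators `[..[[x, y 0], y 1], ..]` -/
def wseq {K : Type*} [Group K] (x : K) (y : ℕ → K) : ℕ → K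
  | 0 => x
  | n + 1 => ⁅wseq x y n, y n⁆

theorem wseq_succ' {K : Type*} [Group K] (x : K) (y : ℕ → K) (n : ℕ) :
    wseq x y (n + 1) = wseq ⁅x, y 0⁆ (fun i => y (i + 1)) n := by
  induction n with
  | zero => rfl
  | succ n ih =>
    change ⁅wseq x y (n + 1), y (n + 1)⁆ = _
    rw [ih]
    rfl

theorem map_wseq {K L : Type*} [Group K] [Group L] (f : K →* L) (x : K) (y : ℕ → K) (n : ℕ) :
    f (wseq x y n) = wseq (f x) (fun i => f (y i)) n := by
  induction n with
  | zero => rfl
  | succ n ih =>
    change f ⁅wseq x y n, y n⁆ = ⁅wseq (f x) (fun i => f (y i)) n, f (y n)⁆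
    rw [map_commutatorElement, ih]

theorem exists_wseq {K : Type*} [Group K] (n : ℕ) : ∀ x : K, x ∉ Subgroup.upperCentralSeries K n →
    ∃ y : ℕ → K, ∀ i ≤ n, wseq x y i ∉ Subgroup.upperCentralSeries K (n - i) := by
  induction n with
  | zero =>
    intro x hx
    refine ⟨fun _ => 1, fun i hi => ?_⟩
    obtain rfl : i = 0 := by omega
    exact hx
  | succ n ih =>
    intro x hx
    rw [Subgroup.mem_upperCentralSeries_succ_iff] at hx
    push Not at hx
    obtain ⟨z, hz⟩ := hx
    obtain ⟨y, hy⟩ := ih _ hz
    refine ⟨fun i => Nat.casesOn i z y, fun i hi => ?_⟩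
    rcases i with _ | i
    · change x ∉ Subgroup.upperCentralSeries K (n + 1)
      rw [Subgroup.mem_upperCentralSeries_succ_iff]
      push Not
      exact ⟨z, hz⟩
    · rw [wseq_succ']
      have := hy i (by omega)
      rw [show n + 1 - (i + 1) = n - i by omega]
      exact this

theorem wseq_mem_lcs {K : Type*} [Group K] (x : K) (y : ℕ → K) (m n : ℕ)
    (hx : x ∈ (⊤ : Subgroup K).lowerCentralSeries m) :
    wseq x y n ∈ (⊤ : Subgroup K).lowerCentralSeries (m + n) := by
  induction n with
  | zero => exact hx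
  | succ n ih => exact commutator_mem_commutator ih (mem_top _)

theorem wseq_mem_normal {K : Type*} [Group K] (N : Subgroup K) [N.Normal] (x : K) (y : ℕ → K)
    (i n : ℕ) (hx : wseq x y i ∈ N) : wseq x y (i + n) ∈ N := by
  induction n with
  | zero => exact hx
  | succ n ih =>
    have : ⁅wseq x y (i + n), y (i + n)⁆ ∈ ⁅N, (⊤ : Subgroup K)⁆ :=
      commutator_mem_commutator ih (mem_top _)
    exact (commutator_le_left N ⊤) this

/-- three subgroups lemma modulo a normal subgroup -/
theorem three_sub {G : Type*} [Group G] (N A B C : Subgroup G) [N.Normal]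
    (h1 : ⁅⁅B, C⁆, A⁆ ≤ N) (h2 : ⁅⁅C, A⁆, B⁆ ≤ N) : ⁅⁅A, B⁆, C⁆ ≤ N := by
  have key : ∀ X Y Z : Subgroup G, ⁅⁅X, Y⁆, Z⁆ ≤ N ↔
      ⁅⁅X.map (QuotientGroup.mk' N), Y.map (QuotientGroup.mk' N)⁆,
        Z.map (QuotientGroup.mk' N)⁆ = ⊥ := by
    intro X Y Z
    rw [← map_commutator, ← map_commutator, Subgroup.map_eq_bot_iff, QuotientGroup.ker_mk']
  rw [key] at h1 h2 ⊢
  exact commutator_commutator_eq_bot_of_rotate h1 h2

theorem comm_lcs {G : Type*} [Group G] (j : ℕ) : ∀ i : ℕ,
    ⁅(⊤ : Subgroup G).lowerCentralSeries i, (⊤ : Subgroup G).lowerCentralSeries j⁆ ≤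
      (⊤ : Subgroup G).lowerCentralSeries (i + j + 1) := by
  induction j with
  | zero => intro i; exact le_of_eq rfl
  | succ j ih =>
    intro i
    rw [commutator_comm]
    refine three_sub _ _ _ _ ?_ ?_
    · rw [commutator_comm ⊤]
      have := ih (i + 1)
      rw [show i + (j + 1) + 1 = i + 1 + j + 1 by omega]
      exact this
    · exact commutator_mono (ih i) le_rfl

/-- simple commutators of weight `n + 1` in the elements of `S` -/
def simpleComm {G : Type*} [Group G] (S : Set G) : ℕ → Set G
  | 0 => S
  | n + 1 => {z | ∃ u ∈ simpleComm S n, ∃ s ∈ S, ⁅u, s⁆ = z}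

theorem simpleComm_finite {G : Type*} [Group G] (S : Set G) (hS : S.Finite) (n : ℕ) :
    (simpleComm S n).Finite := by
  induction n with
  | zero => exact hS
  | succ n ih =>
    have : simpleComm S (n + 1) = Set.image2 (fun u s => ⁅u, s⁆) (simpleComm S n) S := by
      ext z
      simp [simpleComm, Set.mem_image2]
    rw [this]
    exact ih.image2 _ hS

theorem simpleComm_sub {G : Type*} [Group G] (S : Set G) (n : ℕ) :
    simpleComm S n ⊆ (⊤ : Subgroup G).lowerCentralSeries n := by
  induction n with
  | zero => intro x _; exact mem_top _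
  | succ n ih =>
    rintro _ ⟨u, hu, s, _, rfl⟩
    exact commutator_mem_commutator (ih hu) (mem_top _)

theorem lcs_le_of_simpleComm {G : Type*} [Group G] (S : Set G) (hS : closure S = ⊤) (n : ℕ) :
    ∀ N : Subgroup G, N.Normal → simpleComm S n ⊆ N →
      (⊤ : Subgroup G).lowerCentralSeries n ≤ N := by
  induction n with
  | zero =>
    intro N _ h
    change ⊤ ≤ N
    rw [← hS, closure_le]
    exact h
  | succ n ih =>
    intro N hN h
    set M : Subgroup G := (center (G ⧸ N)).comap (QuotientGroup.mk' N) with hM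
    have hMm : ∀ x, x ∈ M ↔ ∀ g, ⁅x, g⁆ ∈ N := by
      intro x
      rw [hM, mem_comap, mem_center_iff]
      constructor
      · intro hx g
        have := hx (QuotientGroup.mk' N g)
        rw [← QuotientGroup.ker_mk' N, MonoidHom.mem_ker, map_commutatorElement,
          commutatorElement_eq_one_iff_mul_comm]
        exact this.symm
      · intro hx g
        obtain ⟨g, rfl⟩ := QuotientGroup.mk'_surjective N g
        have := hx g
        rw [← QuotientGroup.ker_mk' N, MonoidHom.mem_ker, map_commutatorElement,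
          commutatorElement_eq_one_iff_mul_comm] at this
        exact this.symm
    have hsub : simpleComm S n ⊆ M := by
      intro u hu
      rw [SetLike.mem_coe, hMm]
      intro g
      have hg : g ∈ closure S := by rw [hS]; exact mem_top _
      -- the centralizer of the image of `u`
      set Z : Subgroup G := (centralizer {QuotientGroup.mk' N u}).comap (QuotientGroup.mk' N)
        with hZ
      have hZm : ∀ x, x ∈ Z ↔ ⁅u, x⁆ ∈ N := by
        intro x
        have h1 : ⁅u, x⁆ ∈ N ↔ QuotientGroup.mk' N u * QuotientGroup.mk' N x =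
            QuotientGroup.mk' N x * QuotientGroup.mk' N u := by
          rw [← commutatorElement_eq_one_iff_mul_comm, ← map_commutatorElement]
          exact (QuotientGroup.eq_one_iff _).symm
        rw [h1, hZ, mem_comap, mem_centralizer_singleton_iff]
        constructor <;> intro h <;> exact h.symm
      have : closure S ≤ Z := by
        rw [closure_le]
        intro s hs
        rw [SetLike.mem_coe, hZm]
        exact h ⟨u, hu, s, hs, rfl⟩
      exact (hZm g).1 (this hg)
    have hMn : M.Normal := by rw [hM]; infer_instance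
    have h1 := ih M hMn hsub
    change ⁅_, _⁆ ≤ N
    rw [commutator_le]
    intro a ha b _
    exact (hMm a).1 (h1 ha) b

/-- the rank lemma -/
theorem rank_lemma {H : Type*} [Group H] {r : ℕ} (hr : SRank H r) (a : ℕ → H)
    (E : ℕ → Subgroup H)
    (hcomm : ∀ x ∈ closure (a '' Set.Iic r), ∀ y ∈ closure (a '' Set.Iic r), ∀ i ≤ r,
      ⁅x, y⁆ ∈ E i)
    (htf : ∀ i ≤ r, ∀ n : ℕ, 0 < n → a i ^ n ∉ E i)
    (hlow : ∀ i j, i < j → j ≤ r → a j ∈ E i) : False := by
  classical
  set K : Subgroup H := closure (a '' Set.Iic r) with hK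
  obtain ⟨s, hs, hsK⟩ := hr K ⟨(Finset.Iic r).image a, by simp [hK]⟩
  have hsub : ∀ x ∈ s, x ∈ K := by
    intro x hx
    rw [← hsK]
    exact subset_closure hx
  have haK : ∀ i ≤ r, a i ∈ K := fun i hi => subset_closure ⟨i, hi, rfl⟩
  -- the commutator subgroup of `K` lies in every `E i`
  have hder : ∀ i ≤ r, _root_.commutator K ≤ (E i).subgroupOf K := by
    intro i hi
    rw [_root_.commutator_def, commutator_le]
    intro x _ y _
    exact hcomm x.1 x.2 y.1 y.2 i hi
  let of : K →* Abelianization K := Abelianization.of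
  -- the images in the abelianization
  let v : Fin (r + 1) → Additive (Abelianization K) :=
    fun i => Additive.ofMul (of ⟨a i, haK i (by omega)⟩)
  let w : s → Additive (Abelianization K) := fun x => Additive.ofMul (of ⟨x.1, hsub x.1 x.2⟩)
  have hspan : Submodule.span ℤ (Set.range w) = ⊤ := by
    rw [eq_top_iff]
    rintro z -
    obtain ⟨k, hk⟩ : ∃ k : K, Additive.ofMul (of k) = z := by
      obtain ⟨k, hk⟩ := QuotientGroup.mk_surjective (Additive.toMul z)
      exact ⟨k, hk⟩
    rw [← hk]
    obtain ⟨k, hkK⟩ := k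
    have hk' : k ∈ closure (s : Set H) := by rw [hsK]; exact hkK
    have : ∀ k (hk : k ∈ closure (s : Set H)),
        Additive.ofMul (of ⟨k, by rw [← hsK]; exact hk⟩) ∈ Submodule.span ℤ (Set.range w) := by
      intro k hk
      induction hk using closure_induction with
      | mem x hx => exact Submodule.subset_span ⟨⟨x, hx⟩, rfl⟩
      | one =>
        have : of ⟨1, K.one_mem⟩ = 1 := of.map_one
        rw [this]
        exact Submodule.zero_mem _
      | mul x y hx hy h1 h2 =>
        have hx' : x ∈ K := by rw [← hsK]; exact hx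
        have hy' : y ∈ K := by rw [← hsK]; exact hy
        have : of ⟨x * y, K.mul_mem hx' hy'⟩ = of ⟨x, hx'⟩ * of ⟨y, hy'⟩ :=
          of.map_mul ⟨x, hx'⟩ ⟨y, hy'⟩
        rw [this, ofMul_mul]
        exact Submodule.add_mem _ h1 h2
      | inv x hx h1 =>
        have hx' : x ∈ K := by rw [← hsK]; exact hx
        have : of ⟨x⁻¹, K.inv_mem hx'⟩ = (of ⟨x, hx'⟩)⁻¹ := of.map_inv ⟨x, hx'⟩
        rw [this, ofMul_inv]
        exact Submodule.neg_mem _ h1
    exact this k hk'
  have hli : LinearIndependent ℤ v := by
    rw [Fintype.linearIndependent_iff]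
    intro g hg
    by_contra hne
    push Not at hne
    -- the smallest index with a nonzero coefficient
    obtain ⟨i, hi, hmin⟩ : ∃ i : Fin (r + 1), g i ≠ 0 ∧ ∀ j, j < i → g j = 0 := by
      have hex : ∃ n : ℕ, ∃ i : Fin (r + 1), i.1 = n ∧ g i ≠ 0 := by
        obtain ⟨i, hi⟩ := hne
        exact ⟨i.1, i, rfl, hi⟩
      obtain ⟨i, hi1, hi2⟩ := Nat.find_spec hex
      refine ⟨i, hi2, fun j hj => ?_⟩
      by_contra hj'
      have := Nat.find_min hex (m := j.1) (by rw [← hi1]; exact hj)
      exact this ⟨j, rfl, hj'⟩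
    have hir : i.1 ≤ r := by omega
    let B : Subgroup (Abelianization K) := ((E i).subgroupOf K).map of
    have hBmem : ∀ k : K, of k ∈ B → k.1 ∈ E i := by
      rintro k ⟨l, hl, hlk⟩
      have h1 : l⁻¹ * k ∈ _root_.commutator K := by
        rw [← Abelianization.ker_of, MonoidHom.mem_ker]
        change of (l⁻¹ * k) = 1
        rw [map_mul, map_inv, hlk]
        simp
      have h2 := hder i hir h1
      have h3 : l * (l⁻¹ * k) ∈ (E i).subgroupOf K := mul_mem hl h2
      rw [mul_inv_cancel_left] at h3
      exact h3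
    let B' : AddSubgroup (Additive (Abelianization K)) := Subgroup.toAddSubgroup B
    have hmem : g i • v i ∈ B' := by
      have h1 : g i • v i = - ∑ j ∈ Finset.univ.erase i, g j • v j := by
        rw [eq_neg_iff_add_eq_zero, ← hg]
        exact Finset.add_sum_erase Finset.univ (fun j => g j • v j) (Finset.mem_univ i)
      rw [h1]
      refine B'.neg_mem (B'.sum_mem fun j hj => ?_)
      rcases lt_trichotomy j i with h | h | h
      · rw [hmin j h, zero_smul]; exact B'.zero_mem
      · exact absurd h (Finset.ne_of_mem_erase hj)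
      · refine B'.zsmul_mem ?_ _
        refine ⟨⟨a j, haK j (by omega)⟩, ?_, rfl⟩
        exact hlow i j h (by omega)
    have h2 : of (⟨a i, haK i hir⟩ ^ g i) ∈ B := by
      rw [map_zpow]
      exact hmem
    have h3 := hBmem _ h2
    have h4 : a i ^ g i ∈ E i := by
      simpa using h3
    have h5 : a i ^ (g i).natAbs ∈ E i := by
      rcases Int.natAbs_eq (g i) with h | h
      · rw [h, zpow_natCast] at h4
        exact h4
      · rw [h, zpow_neg, zpow_natCast] at h4
        exact (E i).inv_mem_iff.1 h4
    exact htf i hir _ (Int.natAbs_pos.2 hi) h5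
  have hle := linearIndependent_le_span v hli (Set.range w) hspan
  have h1 : Fintype.card (Set.range w) ≤ s.card := by
    have := Fintype.card_range_le w
    simpa using this
  have h2 : (r + 1 : ℕ) ≤ Fintype.card (Set.range w) := by
    simpa using hle
  omega

end Pool.Agent.Helper58.RK
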