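import Pool.Agent.Helper58.RK.Jumps

set_option autoImplicit false

namespace Pool.Agent.Helper58.RK

open Subgroup
open scoped commutatorElement Nat

/-- the intersection of all subgroups of index at most `m` -/
def lowIndex (G : Type*) [Group G] (m : ℕ) : Subgroup G :=
  sInf {N : Subgroup G | N.index ≠ 0 ∧ N.index ≤ m}

theorem lowIndex_le {G : Type*} [Group G] {m : ℕ} {N : Subgroup G} (h1 : N.index ≠ 0)
    (h2 : N.index ≤ m) : lowIndex G m ≤ N := sInf_le ⟨h1, h2⟩

theorem lowIndex_char (G : Type*) [Group G] (m : ℕ) : (lowIndex G m).Characteristic := by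
  rw [characteristic_iff_comap_le]
  intro e x hx
  rw [lowIndex, mem_sInf]
  intro N hN
  have hN' : N.map e.toMonoidHom ∈ {N : Subgroup G | N.index ≠ 0 ∧ N.index ≤ m} := by
    have hidx : (N.map e.toMonoidHom).index = N.index := by
      rw [← Subgroup.index_map_equiv N e]
      rfl
    rw [Set.mem_ofPred_eq, hidx]
    exact hN
  rw [mem_comap, lowIndex, mem_sInf] at hx
  obtain ⟨y, hy, hyx⟩ := hx _ hN'
  have : y = x := e.injective hyx
  rw [← this]
  exact hy

/-- a subgroup of index at most `m` contains the kernel of a homomorphism to `Perm (Fin m)` -/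
theorem exists_hom {G : Type*} [Group G] {m : ℕ} (N : Subgroup G) (h1 : N.index ≠ 0)
    (h2 : N.index ≤ m) : ∃ f : G →* Equiv.Perm (Fin m), ∀ g, f g = 1 → g ∈ N := by
  classical
  have : Finite (G ⧸ N) := Nat.finite_of_card_ne_zero h1
  have : Fintype (G ⧸ N) := Fintype.ofFinite _
  have hcard : Fintype.card (G ⧸ N) ≤ Fintype.card (Fin m) := by
    rw [Fintype.card_fin, ← Nat.card_eq_fintype_card]
    exact h2
  obtain ⟨e⟩ := Function.Embedding.nonempty_of_card_le hcard
  refine ⟨(Equiv.Perm.viaEmbeddingHom e).comp (MulAction.toPermHom G (G ⧸ N)), fun g hg => ?_⟩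
  have h3 : Equiv.Perm.viaEmbeddingHom e (MulAction.toPermHom G (G ⧸ N) g) =
      Equiv.Perm.viaEmbeddingHom e 1 := by
    rw [map_one]
    exact hg
  have h4 := Equiv.Perm.viaEmbeddingHom_injective e h3
  have h5 : g • ((1 : G) : G ⧸ N) = ((1 : G) : G ⧸ N) := by
    have := congrArg (fun p : Equiv.Perm (G ⧸ N) => p ((1 : G) : G ⧸ N)) h4
    exact this
  have h6 : ((g * 1 : G) : G ⧸ N) = ((1 : G) : G ⧸ N) := h5
  rw [mul_one, eq_comm, QuotientGroup.eq, inv_one, one_mul] at h6
  exact h6

theorem pigeon {G : Type*} [Group G] {r m : ℕ} (hr : SRank G r)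
    (g : Fin ((m !) ^ ((m !) ^ r) + 1) → G) :
    ∃ i j, i ≠ j ∧ (g i)⁻¹ * g j ∈ lowIndex G m := by
  classical
  set H : Subgroup G := closure (Set.range g) with hH
  obtain ⟨s, hs, hsH⟩ := hr H ((Subgroup.fg_iff _).2 ⟨_, rfl, Set.finite_range g⟩)
  have hsub : ∀ x ∈ s, x ∈ H := by
    intro x hx
    rw [← hsH]
    exact subset_closure hx
  have hgH : ∀ i, g i ∈ H := fun i => subset_closure ⟨i, rfl⟩
  -- homomorphisms are determined by their values on `s`
  let res : (H →* Equiv.Perm (Fin m)) → (s → Equiv.Perm (Fin m)) :=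
    fun f x => f ⟨x.1, hsub x.1 x.2⟩
  have hres : Function.Injective res := by
    intro f f' hff
    have heq : closure (Subtype.val ⁻¹' (s : Set G) : Set H) = ⊤ := by
      apply Subgroup.map_injective H.subtype_injective
      rw [MonoidHom.map_closure, ← MonoidHom.range_eq_map, H.range_subtype]
      have himg : H.subtype '' (Subtype.val ⁻¹' (s : Set G)) = (s : Set G) := by
        ext z
        constructor
        · rintro ⟨y, hy, rfl⟩
          exact hy
        · intro hz
          exact ⟨⟨z, hsub z hz⟩, hz, rfl⟩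
      rw [himg, hsH]
    refine MonoidHom.eq_of_eqOn_dense heq ?_
    intro x hx
    exact congrFun hff ⟨x.1, hx⟩
  have : Finite (H →* Equiv.Perm (Fin m)) := Finite.of_injective res hres
  have : Fintype (H →* Equiv.Perm (Fin m)) := Fintype.ofFinite _
  have hcard1 : Fintype.card (H →* Equiv.Perm (Fin m)) ≤ (m !) ^ r := by
    refine (Fintype.card_le_of_injective res hres).trans ?_
    rw [Fintype.card_fun, Fintype.card_perm, Fintype.card_fin, Fintype.card_coe]
    exact Nat.pow_le_pow_right (Nat.factorial_pos m) hs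
  let Φ : Fin ((m !) ^ ((m !) ^ r) + 1) → ((H →* Equiv.Perm (Fin m)) → Equiv.Perm (Fin m)) :=
    fun i f => f ⟨g i, hgH i⟩
  have hcard2 : Fintype.card ((H →* Equiv.Perm (Fin m)) → Equiv.Perm (Fin m)) <
      Fintype.card (Fin ((m !) ^ ((m !) ^ r) + 1)) := by
    rw [Fintype.card_fun, Fintype.card_perm, Fintype.card_fin, Fintype.card_fin]
    exact Nat.lt_succ_of_le (Nat.pow_le_pow_right (Nat.factorial_pos m) hcard1)
  obtain ⟨i, j, hij, hΦ⟩ := Fintype.exists_ne_map_eq_of_card_lt Φ hcard2
  refine ⟨i, j, hij, ?_⟩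
  rw [lowIndex, mem_sInf]
  rintro N ⟨h1, h2⟩
  obtain ⟨f, hf⟩ := exists_hom N h1 h2
  apply hf
  have h3 := congrFun hΦ (f.comp H.subtype)
  have h4 : f (g i) = f (g j) := h3
  rw [map_mul, map_inv, h4, inv_mul_cancel]

theorem index_bound {G : Type*} [Group G] {r : ℕ} (m : ℕ) (hr : SRank G r) :
    (lowIndex G m).index ≠ 0 ∧ (lowIndex G m).index ≤ (m !) ^ ((m !) ^ r) := by
  by_contra hcon
  have hemb : Nonempty (Fin ((m !) ^ ((m !) ^ r) + 1) ↪ G ⧸ lowIndex G m) := by
    rcases finite_or_infinite (G ⧸ lowIndex G m) with hfin | hinf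
    · have : Fintype (G ⧸ lowIndex G m) := Fintype.ofFinite _
      apply Function.Embedding.nonempty_of_card_le
      rw [Fintype.card_fin]
      have h0 : (lowIndex G m).index = Fintype.card (G ⧸ lowIndex G m) := by
        rw [← Nat.card_eq_fintype_card]
        rfl
      have h1 : Fintype.card (G ⧸ lowIndex G m) ≠ 0 := Fintype.card_ne_zero
      rw [h0] at hcon
      omega
    · exact ⟨(Fin.valEmbedding).trans (Infinite.natEmbedding _)⟩
  obtain ⟨e⟩ := hemb
  obtain ⟨i, j, hij, hmem⟩ := pigeon (m := m) hr (fun i => (e i).out)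
  apply hij
  apply e.injective
  rw [← QuotientGroup.out_eq' (e i), ← QuotientGroup.out_eq' (e j)]
  exact QuotientGroup.eq.2 hmem

end Pool.Agent.Helper58.RK
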