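import Pool.Agent.Helper58.RK.Central

set_option autoImplicit false

namespace Pool.Agent.Helper58.RK

open Subgroup
open scoped commutatorElement

/-- a choice of a jump `(D x, C x)` for every element `x ≠ 1`, torsion-free factors -/
structure Jumps (G : Type*) [Group G] where
  C : G → Subgroup G
  D : G → Subgroup G
  hC : ∀ x, (C x).Normal
  hD : ∀ x, (D x).Normal
  mem : ∀ x, x ≠ 1 → x ∈ C x
  nmem : ∀ x, x ≠ 1 → x ∉ D x
  le : ∀ x, x ≠ 1 → D x ≤ C x
  cmpD : ∀ x y, x ≠ 1 → y ≠ 1 → D y ≤ D x ∨ C x ≤ D y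
  cmpC : ∀ x y, x ≠ 1 → y ≠ 1 → C y ≤ D x ∨ C x ≤ C y
  tf : ∀ x, x ≠ 1 → ∀ a ∈ C x, ∀ n : ℕ, 0 < n → a ^ n ∈ D x → a ∈ D x

/-- the factors are central -/
def Jumps.Central {G : Type*} [Group G] (J : Jumps G) : Prop :=
  ∀ x, x ≠ 1 → ∀ a ∈ J.C x, ∀ g, ⁅a, g⁆ ∈ J.D x

/-- restriction along an injective homomorphism -/
def Jumps.pull {G K : Type*} [Group G] [Group K] (J : Jumps G) (f : K →* G)
    (hf : Function.Injective f) : Jumps K where
  C := fun x => (J.C (f x)).comap f
  D := fun x => (J.D (f x)).comap f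
  hC := fun x => (J.hC (f x)).comap f
  hD := fun x => (J.hD (f x)).comap f
  mem := fun x hx => J.mem (f x) (fun h => hx (hf (by rw [h, map_one])))
  nmem := fun x hx => J.nmem (f x) (fun h => hx (hf (by rw [h, map_one])))
  le := fun x hx => comap_mono (J.le (f x) (fun h => hx (hf (by rw [h, map_one]))))
  cmpD := fun x y hx hy => (J.cmpD (f x) (f y) (fun h => hx (hf (by rw [h, map_one])))
    (fun h => hy (hf (by rw [h, map_one])))).imp (fun h => comap_mono h) (fun h => comap_mono h)
  cmpC := fun x y hx hy => (J.cmpC (f x) (f y) (fun h => hx (hf (by rw [h, map_one])))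
    (fun h => hy (hf (by rw [h, map_one])))).imp (fun h => comap_mono h) (fun h => comap_mono h)
  tf := fun x hx a ha n hn h => J.tf (f x) (fun h => hx (hf (by rw [h, map_one]))) (f a) ha n hn
    (by rw [← map_pow]; exact h)

theorem Jumps.pull_central {G K : Type*} [Group G] [Group K] (J : Jumps G) (f : K →* G)
    (hf : Function.Injective f)
    (hcen : ∀ x, x ≠ 1 → ∀ a ∈ J.C x, ∀ g : K, ⁅a, f g⁆ ∈ J.D x) : (J.pull f hf).Central := by
  intro x hx a ha g
  change f ⁅a, g⁆ ∈ J.D (f x)
  rw [map_commutatorElement]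
  exact hcen (f x) (fun h => hx (hf (by rw [h, map_one]))) (f a) ha g

/-- special rank passes to subgroups -/
theorem SRank.pull {G K : Type*} [Group G] [Group K] {r : ℕ} (h : SRank G r) (f : K →* G)
    (hf : Function.Injective f) : SRank K r := by
  classical
  intro H hH
  obtain ⟨t, ht⟩ := hH
  have hfg : (H.map f).FG := ⟨t.image f, by
    rw [← ht, Finset.coe_image, MonoidHom.map_closure]⟩
  obtain ⟨s, hs, hsH⟩ := h _ hfg
  have hsub : ∀ x ∈ s, ∃ y ∈ H, f y = x := by
    intro x hx
    have : x ∈ H.map f := by rw [← hsH]; exact subset_closure hx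
    exact this
  choose! y hy1 hy2 using hsub
  refine ⟨s.image y, (Finset.card_image_le).trans hs, ?_⟩
  apply Subgroup.map_injective hf
  rw [MonoidHom.map_closure, ← hsH, Finset.coe_image, Set.image_image]
  congr 1
  ext z
  constructor
  · rintro ⟨x, hx, rfl⟩
    change f (y x) ∈ (s : Set G)
    rw [hy2 x hx]
    exact hx
  · intro hz
    exact ⟨z, hz, hy2 z hz⟩

/-- the finitely generated central case -/
theorem central_fg {H : Type*} [Group H] {r : ℕ} (hr : SRank H r) (J : Jumps H)
    (hJ : J.Central) (S : Set H) (hSf : S.Finite) (hS : closure S = ⊤) :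
    (⊤ : Subgroup H).lowerCentralSeries (2 * r) = ⊥ := by
  by_contra hne
  -- a nontrivial simple commutator
  have hex : ∃ t ∈ simpleComm S (2 * r), t ≠ 1 := by
    by_contra h
    push Not at h
    apply hne
    rw [eq_bot_iff]
    refine lcs_le_of_simpleComm S hS (2 * r) ⊥ inferInstance ?_
    intro t ht
    rw [SetLike.mem_coe, mem_bot]
    exact h t ht
  -- one with the largest jump
  have hfin : {t | t ∈ simpleComm S (2 * r) ∧ t ≠ 1}.Finite :=
    (simpleComm_finite S hSf (2 * r)).subset fun t ht => ht.1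
  obtain ⟨t, ⟨ht, ht1⟩, htmax⟩ := hfin.exists_maximalFor J.C _ hex
  have hT : simpleComm S (2 * r) ⊆ J.C t := by
    intro u hu
    by_cases hu1 : u = 1
    · rw [hu1]; exact one_mem _
    · rcases J.cmpC t u ht1 hu1 with h | h
      · exact J.le t ht1 (h (J.mem u hu1))
      · exact htmax ⟨hu, hu1⟩ h (J.mem u hu1)
  have hCle : (⊤ : Subgroup H).lowerCentralSeries (2 * r) ≤ J.C t :=
    lcs_le_of_simpleComm S hS _ _ (J.hC t) hT
  have hDle : (⊤ : Subgroup H).lowerCentralSeries (2 * r + 1) ≤ J.D t := by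
    change ⁅_, _⁆ ≤ _
    rw [commutator_le]
    intro a ha g _
    exact hJ t ht1 a (hCle ha) g
  have hDn : (J.D t).Normal := J.hD t
  -- the key claim
  have key : (⊤ : Subgroup H).lowerCentralSeries r ≤
      (Subgroup.upperCentralSeries (H ⧸ J.D t) r).comap (QuotientGroup.mk' (J.D t)) := by
    intro a0 ha0
    by_contra hn
    obtain ⟨y, hy⟩ := exists_wseq r (QuotientGroup.mk' (J.D t) a0) hn
    choose z hz using fun i => QuotientGroup.mk'_surjective (J.D t) (y i)
    have hmap : ∀ i, QuotientGroup.mk' (J.D t) (wseq a0 z i) =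
        wseq (QuotientGroup.mk' (J.D t) a0) y i := by
      intro i
      rw [map_wseq]
      congr 1
      funext j
      exact hz j
    have hnD : ∀ i ≤ r, wseq a0 z i ∉ J.D t := by
      intro i hi hmem
      apply hy i hi
      rw [← hmap]
      have : QuotientGroup.mk' (J.D t) (wseq a0 z i) = 1 := (QuotientGroup.eq_one_iff _).2 hmem
      rw [this]
      exact one_mem _
    have hn1 : ∀ i ≤ r, wseq a0 z i ≠ 1 := by
      intro i hi h
      apply hnD i hi
      rw [h]
      exact one_mem _
    have hDD : ∀ i ≤ r, J.D t ≤ J.D (wseq a0 z i) := by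
      intro i hi
      rcases J.cmpD (wseq a0 z i) t (hn1 i hi) ht1 with h | h
      · exact h
      · exact absurd (h (J.mem _ (hn1 i hi))) (hnD i hi)
    have hlcs : ∀ i, wseq a0 z i ∈ (⊤ : Subgroup H).lowerCentralSeries r := by
      intro i
      have := wseq_mem_lcs a0 z r i ha0
      exact (⊤ : Subgroup H).lowerCentralSeries_antitone (Nat.le_add_right r i) this
    refine rank_lemma hr (fun i => wseq a0 z i) (fun i => J.D (wseq a0 z i)) ?_ ?_ ?_
    · intro x hx y' hy' i hi
      have hsub : closure ((fun i => wseq a0 z i) '' Set.Iic r) ≤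
          (⊤ : Subgroup H).lowerCentralSeries r := by
        rw [closure_le]
        rintro _ ⟨j, _, rfl⟩
        exact hlcs j
      have h1 : ⁅x, y'⁆ ∈ (⊤ : Subgroup H).lowerCentralSeries (r + r + 1) :=
        comm_lcs r r (commutator_mem_commutator (hsub hx) (hsub hy'))
      rw [← two_mul] at h1
      exact hDD i hi (hDle h1)
    · intro i hi n hn h
      exact J.nmem _ (hn1 i hi) (J.tf _ (hn1 i hi) _ (J.mem _ (hn1 i hi)) n hn h)
    · intro i j hij hj
      have hi : i ≤ r := by omega
      have h1 : wseq a0 z (i + 1) ∈ J.D (wseq a0 z i) :=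
        hJ _ (hn1 i hi) _ (J.mem _ (hn1 i hi)) (z i)
      have hN : (J.D (wseq a0 z i)).Normal := J.hD _
      have h2 := wseq_mem_normal (J.D (wseq a0 z i)) a0 z (i + 1) (j - (i + 1)) h1
      rw [show i + 1 + (j - (i + 1)) = j by omega] at h2
      exact h2
  -- descend
  have hdesc : ∀ k ≤ r, (⊤ : Subgroup H).lowerCentralSeries (r + k) ≤
      (Subgroup.upperCentralSeries (H ⧸ J.D t) (r - k)).comap (QuotientGroup.mk' (J.D t)) := by
    intro k
    induction k with
    | zero => intro _; exact key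
    | succ k ih =>
      intro hk
      change ⁅_, _⁆ ≤ _
      rw [commutator_le]
      intro a ha g _
      have h1 := ih (by omega) ha
      rw [mem_comap] at h1 ⊢
      rw [show r - k = (r - (k + 1)) + 1 by omega] at h1
      rw [map_commutatorElement]
      exact (Subgroup.mem_upperCentralSeries_succ_iff.1 h1) _
  have hfinal := hdesc r le_rfl
  rw [Nat.sub_self, ← two_mul] at hfinal
  have h1 := hfinal (simpleComm_sub S (2 * r) ht)
  rw [mem_comap, Subgroup.upperCentralSeries_zero, mem_bot] at h1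
  exact J.nmem t ht1 ((QuotientGroup.eq_one_iff _).1 h1)

/-- the central case -/
theorem central_thm {K : Type*} [Group K] {r : ℕ} (hr : SRank K r) (J : Jumps K)
    (hJ : J.Central) : (⊤ : Subgroup K).lowerCentralSeries (2 * r) = ⊥ := by
  rw [Subgroup.lowerCentralSeries_eq_bot_iff_upperCentralSeries_eq_top]
  rw [eq_top_iff]
  intro x _
  by_contra hx
  obtain ⟨y, hy⟩ := exists_wseq (2 * r) x hx
  have h0 := hy (2 * r) le_rfl
  rw [Nat.sub_self, Subgroup.upperCentralSeries_zero, mem_bot] at h0
  -- the finitely generated subgroup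
  set S : Set K := insert x (y '' Set.Iio (2 * r)) with hS
  set H : Subgroup K := closure S with hH
  have hxH : x ∈ H := subset_closure (Set.mem_insert _ _)
  have hyH : ∀ i < 2 * r, y i ∈ H := fun i hi =>
    subset_closure (Set.mem_insert_of_mem _ ⟨i, hi, rfl⟩)
  have hinj : Function.Injective H.subtype := H.subtype_injective
  have hcen := J.pull_central H.subtype hinj (fun x hx a ha g => hJ x hx a ha g)
  have hfg : ∃ T : Set H, T.Finite ∧ closure T = ⊤ := by
    have : Group.FG H := by
      rw [Group.fg_iff_subgroup_fg]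
      refine (Subgroup.fg_iff _).2 ⟨S, rfl, ?_⟩
      exact ((Set.finite_Iio _).image _).insert _
    obtain ⟨T, hT⟩ := (Group.fg_iff.1 this)
    exact ⟨T, hT.2, hT.1⟩
  obtain ⟨T, hTf, hT⟩ := hfg
  have hbot := central_fg (hr.pull H.subtype hinj) (J.pull H.subtype hinj) hcen T hTf hT
  let y' : ℕ → H := fun i => if h : i < 2 * r then ⟨y i, hyH i h⟩ else 1
  have hmem := wseq_mem_lcs (K := H) ⟨x, hxH⟩ y' 0 (2 * r) (mem_top _)
  rw [Nat.zero_add, hbot, mem_bot] at hmem
  apply h0
  have hws : ∀ i ≤ 2 * r, ((wseq (K := H) ⟨x, hxH⟩ y' i : H) : K) = wseq x y i := by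
    intro i
    induction i with
    | zero => intro _; rfl
    | succ i ih =>
      intro hi
      change ((⁅wseq (K := H) ⟨x, hxH⟩ y' i, y' i⁆ : H) : K) = ⁅wseq x y i, y i⁆
      have h1 : ((y' i : H) : K) = y i := by
        simp only [y']
        rw [dif_pos (by omega)]
      rw [← ih (by omega), ← h1]
      rfl
  rw [← hws (2 * r) le_rfl, hmem]
  rfl

end Pool.Agent.Helper58.RK
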