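import Pool.Agent.Helper58.RK.Index

set_option autoImplicit false

namespace Pool.Agent.Helper58.RK

open Subgroup
open scoped commutatorElement Nat

/-- hyperabelian: every proper normal subgroup `N` lies strictly below a normal subgroup `M` with
`M / N` abelian -/
def HyperAb (H : Type*) [Group H] : Prop :=
  ∀ N : Subgroup H, N.Normal → N ≠ ⊤ → ∃ M : Subgroup H, M.Normal ∧ N < M ∧
    ∀ x ∈ M, ∀ y ∈ M, x * y * x⁻¹ * y⁻¹ ∈ N

theorem hyperAb_of_derivedSeries {H : Type*} [Group H] (n : ℕ) (hn : derivedSeries H n = ⊥) :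
    HyperAb H := by
  intro N hN hNt
  have hex : ∃ k, derivedSeries H k ≤ N := ⟨n, by rw [hn]; exact bot_le⟩
  classical
  set k := Nat.find hex with hk
  have hk1 : derivedSeries H k ≤ N := Nat.find_spec hex
  have hk0 : k ≠ 0 := by
    intro h0
    rw [h0] at hk1
    apply hNt
    rw [eq_top_iff]
    exact hk1
  obtain ⟨j, hj⟩ := Nat.exists_eq_succ_of_ne_zero hk0
  have hj1 : ¬ derivedSeries H j ≤ N := Nat.find_min hex (by rw [← hk, hj]; exact Nat.lt_succ_self j)
  refine ⟨N ⊔ derivedSeries H j, inferInstance, ?_, ?_⟩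
  · refine lt_of_le_of_ne le_sup_left fun h => hj1 ?_
    rw [h]
    exact le_sup_right
  · intro x hx y hy
    have h1 : x * y * x⁻¹ * y⁻¹ ∈ ⁅N ⊔ derivedSeries H j, N ⊔ derivedSeries H j⁆ :=
      commutator_mem_commutator hx hy
    have h2 : (N ⊔ derivedSeries H j).map (QuotientGroup.mk' N) =
        (derivedSeries H j).map (QuotientGroup.mk' N) := by
      rw [Subgroup.map_sup]
      have : N.map (QuotientGroup.mk' N) = ⊥ := by
        rw [Subgroup.map_eq_bot_iff, QuotientGroup.ker_mk']
      rw [this, bot_sup_eq]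
    have h3 : QuotientGroup.mk' N (x * y * x⁻¹ * y⁻¹) ∈
        (⁅derivedSeries H j, derivedSeries H j⁆).map (QuotientGroup.mk' N) := by
      rw [map_commutator, ← h2, ← map_commutator]
      exact mem_map_of_mem _ h1
    obtain ⟨z, hz, hzx⟩ := h3
    have hzN : z ∈ N := hk1 (by rw [hj]; exact hz)
    have h4 : QuotientGroup.mk' N z = 1 := (QuotientGroup.eq_one_iff z).2 hzN
    rw [h4] at hzx
    exact (QuotientGroup.eq_one_iff _).1 hzx.symm

theorem derivedSeries_of_lcs {H : Type*} [Group H] (n : ℕ)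
    (hn : (⊤ : Subgroup H).lowerCentralSeries n = ⊥) : derivedSeries H n = ⊥ := by
  have := Subgroup.derived_le_lower_central (G := H) n
  rw [hn] at this
  exact le_bot_iff.1 this

theorem derivedSeries_add {H : Type*} [Group H] (d n : ℕ)
    (h : derivedSeries (derivedSeries H d) n = ⊥) : derivedSeries H (d + n) = ⊥ := by
  have key : ∀ k, derivedSeries H (d + k) =
      (derivedSeries (derivedSeries H d) k).map (derivedSeries H d).subtype := by
    intro k
    induction k with
    | zero =>
      change derivedSeries H d = (⊤ : Subgroup (derivedSeries H d)).map _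
      rw [← MonoidHom.range_eq_map, Subgroup.range_subtype]
    | succ k ih =>
      change ⁅derivedSeries H (d + k), derivedSeries H (d + k)⁆ = _
      rw [ih, ← map_commutator]
      rfl
  rw [key, h, Subgroup.map_bot]

/-- the main theorem in terms of a jump function -/
theorem main_jumps {G : Type*} [Group G] {r : ℕ} (m d : ℕ) (hr : SRank G r) (J : Jumps G)
    (hact : ∀ x, x ≠ 1 → ∃ N : Subgroup G, N.index ≠ 0 ∧ N.index ≤ m ∧
      ∀ g ∈ (derivedSeries N d).map N.subtype, ∀ a ∈ J.C x, ⁅a, g⁆ ∈ J.D x) :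
    (lowIndex G m).Characteristic ∧ (lowIndex G m).index ≠ 0 ∧
      (lowIndex G m).index ≤ (m !) ^ ((m !) ^ r) ∧
      (⊤ : Subgroup (derivedSeries (lowIndex G m) d)).lowerCentralSeries (2 * r) = ⊥ ∧
      HyperAb (lowIndex G m) := by
  have hlcs : (⊤ : Subgroup (derivedSeries (lowIndex G m) d)).lowerCentralSeries (2 * r) = ⊥ := by
    set G₀ := lowIndex G m with hG₀
    let f : (derivedSeries G₀ d) →* G := G₀.subtype.comp (derivedSeries G₀ d).subtype
    have hf : Function.Injective f :=
      G₀.subtype_injective.comp (derivedSeries G₀ d).subtype_injective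
    refine central_thm (hr.pull f hf) (J.pull f hf) (J.pull_central f hf ?_)
    intro x hx a ha g
    obtain ⟨N, h1, h2, h3⟩ := hact x hx
    apply h3 (f g) _ a ha
    have hle : G₀ ≤ N := lowIndex_le h1 h2
    refine ⟨Subgroup.inclusion hle g.1, ?_, rfl⟩
    exact map_derivedSeries_le_derivedSeries (Subgroup.inclusion hle) d ⟨g.1, g.2, rfl⟩
  refine ⟨lowIndex_char G m, (index_bound m hr).1, (index_bound m hr).2, hlcs, ?_⟩
  exact hyperAb_of_derivedSeries (d + 2 * r)
    (derivedSeries_add d (2 * r) (derivedSeries_of_lcs (2 * r) hlcs))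

/-- the main theorem for a chain of normal subgroups -/
theorem main_chain {G : Type*} [Group G] (r m d : ℕ) (S : Set (Subgroup G)) (hr : SRank G r)
    (hn : ∀ N ∈ S, N.Normal)
    (hj : ∀ x : G, x ≠ 1 → ∃ D ∈ S, ∃ C ∈ S, x ∈ C ∧ x ∉ D ∧ D ≤ C ∧
      (∀ E ∈ S, E ≤ D ∨ C ≤ E) ∧
      (∀ a ∈ C, ∀ n : ℕ, 0 < n → a ^ n ∈ D → a ∈ D) ∧
      ∃ N : Subgroup G, N.index ≠ 0 ∧ N.index ≤ m ∧
        ∀ g ∈ (derivedSeries N d).map N.subtype, ∀ a ∈ C, a * g * a⁻¹ * g⁻¹ ∈ D) :
    ∃ G₀ : Subgroup G, G₀.Characteristic ∧ G₀.index ≠ 0 ∧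
      G₀.index ≤ (m !) ^ ((m !) ^ r) ∧
      (⊤ : Subgroup (derivedSeries G₀ d)).lowerCentralSeries (2 * r) = ⊥ ∧
      HyperAb G₀ := by
  classical
  choose! D hD C hC hxC hxD hDC hcmp htf hact using hj
  let J : Jumps G :=
    { C := fun x => if x = 1 then ⊥ else C x
      D := fun x => if x = 1 then ⊥ else D x
      hC := fun x => by
        by_cases h : x = 1
        · simp only [h, if_true]; infer_instance
        · simp only [h, if_false]; exact hn _ (hC x h)
      hD := fun x => by
        by_cases h : x = 1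
        · simp only [h, if_true]; infer_instance
        · simp only [h, if_false]; exact hn _ (hD x h)
      mem := fun x h => by simp only [h, if_false]; exact hxC x h
      nmem := fun x h => by simp only [h, if_false]; exact hxD x h
      le := fun x h => by simp only [h, if_false]; exact hDC x h
      cmpD := fun x y hx hy => by
        simp only [hx, hy, if_false]; exact hcmp x hx _ (hD y hy)
      cmpC := fun x y hx hy => by
        simp only [hx, hy, if_false]; exact hcmp x hx _ (hC y hy)
      tf := fun x hx => by simp only [hx, if_false]; exact htf x hx }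
  have hJ : ∀ x, x ≠ 1 → ∃ N : Subgroup G, N.index ≠ 0 ∧ N.index ≤ m ∧
      ∀ g ∈ (derivedSeries N d).map N.subtype, ∀ a ∈ J.C x, ⁅a, g⁆ ∈ J.D x := by
    intro x hx
    have : J.C x = C x := by simp only [J, hx, if_false]
    rw [this]
    have : J.D x = D x := by simp only [J, hx, if_false]
    rw [this]
    exact hact x hx
  exact ⟨lowIndex G m, main_jumps m d hr J hJ⟩

end Pool.Agent.Helper58.RK
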